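import Mathlib

set_option autoImplicit false

/-!
# Feynman checkers: the definitions
-/

namespace Pool.Agent.R266.FC

open Finset Complex

/-- A checker path that starts at `(0, 0)` and makes `n + 1` steps is given by its steps
`s 0, …, s n`, where `true` is the step `(1, 1)` and `false` is the step `(-1, 1)`. This is the
number of its turns: interior points at which the incoming and the outgoing step differ (that is,
are orthogonal). -/
def turns {n : ℕ} (s : Fin (n + 1) → Bool) : ℕ :=
  ∑ i : Fin n, if s i.castSucc = s i.succ then 0 else 1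

/-- The first coordinate of the endpoint of the path. -/
def endpt {n : ℕ} (s : Fin (n + 1) → Bool) : ℤ := ∑ i, if s i then 1 else -1

/-- `a x t = 2 ^ ((1 - t) / 2) * i * ∑ (-i) ^ turns s`, the sum over the checker paths `s` from
`(0, 0)` to `(x, t)` with first step to `(1, 1)`, for `t ≥ 1`. The value for `t = 0` is junk. -/
noncomputable def a (x : ℤ) : ℕ → ℂ
  | 0 => 0
  | n + 1 => (((2 : ℝ) ^ ((1 - ((n + 1 : ℕ) : ℝ)) / 2) : ℝ) : ℂ) * I *
      ∑ s ∈ univ.filter (fun s : Fin (n + 1) → Bool => s 0 = true ∧ endpt s = x), (-I) ^ turns s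

/-- The sum `S_v(t)`: the sum of `(2 / t) * |a₂ (x, t) / a (x, t)| ^ 2` over the integers `x` with
`0 ≤ x ≤ v t` and `x ≡ t (mod 2)`, where `a₂` is the imaginary part of `a`. -/
noncomputable def S (v : ℝ) (t : ℕ) : ℝ :=
  ∑ x ∈ (Icc (0 : ℤ) ⌊v * t⌋).filter (fun x => x ≡ t [ZMOD 2]),
    2 / (t : ℝ) * ‖((a x t).im : ℂ) / a x t‖ ^ 2

end Pool.Agent.R266.FC
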