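import Mathlib

set_option autoImplicit false

/-!
# Uniform equidistribution for a Möbius function
-/

namespace Pool.Agent.R266.FC

open Finset Filter Topology

/-- The Möbius function. -/
noncomputable def Psi (γ c : ℂ) : ℂ := (1 - c) / (1 + γ * c)

theorem denom_ne {γ c : ℂ} (hγ : ‖γ‖ < 1) (hc : ‖c‖ = 1) : 1 + γ * c ≠ 0 := by
  intro h
  have h1 : γ * c = -1 := by linear_combination h
  have h2 := congrArg norm h1
  rw [norm_mul, hc, mul_one, norm_neg, norm_one] at h2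
  linarith

theorem denom_ge {γ c : ℂ} (hc : ‖c‖ = 1) : 1 - ‖γ‖ ≤ ‖1 + γ * c‖ := by
  have h1 := norm_sub_norm_le (1 : ℂ) (-(γ * c))
  rw [norm_one, norm_neg, norm_mul, hc, mul_one, sub_neg_eq_add] at h1
  exact h1

theorem Psi_lip {γ c c' : ℂ} (hγ : ‖γ‖ < 1) (hc : ‖c‖ = 1) (hc' : ‖c'‖ = 1) :
    ‖Psi γ c - Psi γ c'‖ ≤ ‖1 + γ‖ / (1 - ‖γ‖) ^ 2 * ‖c - c'‖ := by
  have h1 := denom_ne hγ hc
  have h2 := denom_ne hγ hc'
  have e : Psi γ c - Psi γ c' = -((1 + γ) * (c - c')) / ((1 + γ * c) * (1 + γ * c')) := by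
    unfold Psi
    rw [div_sub_div _ _ h1 h2]
    congr 1
    ring
  have hpos : 0 < 1 - ‖γ‖ := by linarith
  rw [e, norm_div, norm_neg, norm_mul, norm_mul, div_mul_eq_mul_div]
  have h3 : (1 - ‖γ‖) ^ 2 ≤ ‖1 + γ * c‖ * ‖1 + γ * c'‖ := by
    rw [sq]
    exact mul_le_mul (denom_ge hc) (denom_ge hc') hpos.le (norm_nonneg _)
  exact div_le_div_of_nonneg_left (by positivity) (by positivity) h3

/-- Normalised exponential sums. -/
noncomputable def E (μ : ℂ) (L k : ℕ) : ℂ := 1 / (L : ℂ) * ∑ j ∈ range L, (μ ^ k) ^ j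

theorem E_le {μ : ℂ} (hμ : ‖μ‖ = 1) (L k : ℕ) : ‖E μ L k‖ ≤ 1 := by
  unfold E
  rcases Nat.eq_zero_or_pos L with rfl | hL
  · simp
  have hL' : (0 : ℝ) < L := by exact_mod_cast hL
  rw [norm_mul, norm_div, norm_one, Complex.norm_natCast]
  have h1 : ‖∑ j ∈ range L, (μ ^ k) ^ j‖ ≤ L := by
    refine (norm_sum_le _ _).trans ?_
    simp [norm_pow, hμ]
  calc 1 / (L : ℝ) * _ ≤ 1 / (L : ℝ) * L := mul_le_mul_of_nonneg_left h1 (by positivity)
    _ = 1 := by field_simp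

theorem E_tendsto {μ : ℂ} (hμ : ‖μ‖ = 1) {k : ℕ} (hk : μ ^ k ≠ 1) :
    Tendsto (fun L => E μ L k) atTop (𝓝 0) := by
  have hk' : μ ^ k - 1 ≠ 0 := sub_ne_zero.2 hk
  refine squeeze_zero_norm (a := fun L : ℕ => (2 / ‖μ ^ k - 1‖) / L) (fun L => ?_)
    (tendsto_const_div_atTop_nhds_zero_nat _)
  unfold E
  rw [geom_sum_eq hk, norm_mul, norm_div, norm_one, Complex.norm_natCast, norm_div]
  have h1 : ‖(μ ^ k) ^ L - 1‖ ≤ 2 := by
    refine (norm_sub_le _ _).trans ?_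
    rw [norm_pow, norm_pow, hμ, norm_one]
    norm_num
  rw [one_div_mul_eq_div]
  gcongr

theorem equi {μ γ : ℂ} (hμ : ‖μ‖ = 1) (hroot : ∀ k : ℕ, 0 < k → μ ^ k ≠ 1) (hγ : ‖γ‖ < 1)
    {ε : ℝ} (hε : 0 < ε) :
    ∀ᶠ L : ℕ in atTop, ∀ c : ℂ, ‖c‖ = 1 →
      ‖1 / (L : ℂ) * ∑ j ∈ range L, Psi γ (μ ^ j * c) - 1‖ ≤ ε := by
  have hB : Tendsto (fun L : ℕ => ‖1 + γ‖ * ∑' k : ℕ, ‖γ‖ ^ k * ‖E μ L (k + 1)‖) atTop
      (𝓝 0) := by
    have h1 := tendsto_tsum_of_dominated_convergence (𝓕 := (atTop : Filter ℕ))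
      (f := fun (L : ℕ) (k : ℕ) => ‖γ‖ ^ k * ‖E μ L (k + 1)‖) (g := fun _ => (0 : ℝ))
      (bound := fun k => ‖γ‖ ^ k) (summable_geometric_of_lt_one (norm_nonneg _) hγ)
      (fun k => by
        have h2 := (E_tendsto hμ (hroot (k + 1) (Nat.succ_pos _))).norm
        rw [norm_zero] at h2
        simpa using h2.const_mul (‖γ‖ ^ k))
      (Eventually.of_forall fun L k => by
        rw [norm_mul, norm_pow, norm_norm, norm_norm]
        exact mul_le_of_le_one_right (by positivity) (E_le hμ _ _))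
    rw [tsum_zero] at h1
    simpa using h1.const_mul ‖1 + γ‖
  filter_upwards [hB.eventually (ge_mem_nhds hε), eventually_gt_atTop 0] with L hL hL0 c hc
  have hL' : (L : ℂ) ≠ 0 := by exact_mod_cast hL0.ne'
  refine le_trans ?_ hL
  have hw : ∀ j : ℕ, ‖μ ^ j * c‖ = 1 := fun j => by rw [norm_mul, norm_pow, hμ, hc]; simp
  have hgeo : ∀ j : ℕ, HasSum (fun k : ℕ => (-γ) ^ k * (μ ^ j * c) ^ (k + 1))
      ((μ ^ j * c) / (1 + γ * (μ ^ j * c))) := by
    intro j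
    have h1 := (hasSum_geometric_of_norm_lt_one (ξ := -γ * (μ ^ j * c)) (by
      rw [norm_mul, norm_neg, hw, mul_one]; exact hγ)).mul_left (μ ^ j * c)
    have e1 : (μ ^ j * c) / (1 + γ * (μ ^ j * c)) =
        (μ ^ j * c) * (1 - -γ * (μ ^ j * c))⁻¹ := by
      rw [div_eq_mul_inv]
      congr 2
      ring
    have e2 : (fun k : ℕ => (-γ) ^ k * (μ ^ j * c) ^ (k + 1)) =
        fun k : ℕ => (μ ^ j * c) * (-γ * (μ ^ j * c)) ^ k := by
      funext k
      rw [mul_pow, pow_succ]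
      ring
    rw [e1, e2]
    exact h1
  have hsum : HasSum (fun k : ℕ => (-γ) ^ k * c ^ (k + 1) * E μ L (k + 1))
      (1 / (L : ℂ) * ∑ j ∈ range L, (μ ^ j * c) / (1 + γ * (μ ^ j * c))) := by
    have h1 := (hasSum_sum fun j (_ : j ∈ range L) => hgeo j).mul_left (1 / (L : ℂ))
    have e : (fun k : ℕ => (-γ) ^ k * c ^ (k + 1) * E μ L (k + 1)) = fun k : ℕ =>
        1 / (L : ℂ) * ∑ j ∈ range L, (-γ) ^ k * (μ ^ j * c) ^ (k + 1) := by
      funext k
      unfold E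
      rw [mul_left_comm _ (1 / (L : ℂ)), mul_sum]
      congr 1
      refine sum_congr rfl fun j _ => ?_
      rw [mul_pow, ← pow_mul, ← pow_mul, mul_comm j (k + 1)]
      ring
    rw [e]
    exact h1
  have hid : 1 / (L : ℂ) * ∑ j ∈ range L, Psi γ (μ ^ j * c) - 1 =
      -((1 + γ) * (1 / (L : ℂ) * ∑ j ∈ range L, (μ ^ j * c) / (1 + γ * (μ ^ j * c)))) := by
    have h1 : ∀ j ∈ range L, Psi γ (μ ^ j * c) =
        1 - (1 + γ) * ((μ ^ j * c) / (1 + γ * (μ ^ j * c))) := by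
      intro j _
      have h2 := denom_ne hγ (hw j)
      unfold Psi
      rw [← mul_div_assoc, eq_sub_iff_add_eq, ← add_div, div_eq_one_iff_eq h2]
      ring
    rw [sum_congr rfl h1, sum_sub_distrib, ← mul_sum, sum_const, card_range, nsmul_eq_mul, mul_one,
      mul_sub, one_div, inv_mul_cancel₀ hL']
    ring
  rw [hid, norm_neg, norm_mul]
  refine mul_le_mul_of_nonneg_left ?_ (norm_nonneg _)
  have hsumm : Summable fun k : ℕ => ‖γ‖ ^ k * ‖E μ L (k + 1)‖ :=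
    (summable_geometric_of_lt_one (norm_nonneg _) hγ).of_nonneg_of_le (fun k => by positivity)
      fun k => mul_le_of_le_one_right (by positivity) (E_le hμ _ _)
  refine hsum.norm_le_of_bounded hsumm.hasSum fun k => ?_
  rw [norm_mul, norm_mul, norm_pow, norm_pow, norm_neg, hc, one_pow, mul_one]

end Pool.Agent.R266.FC
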