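import Mathlib

set_option autoImplicit false

/-!
# Global averages from local averages
-/

namespace Pool.Agent.R266.FC

open Finset MeasureTheory Filter Topology

/-- The site of the parity of `t` next to `ξ t`. -/
noncomputable def xt (t : ℕ) (ξ : ℝ) : ℤ := 2 * ⌊ξ * t / 2⌋ + ((t % 2 : ℕ) : ℤ)

theorem measurable_xt (t : ℕ) : Measurable (xt t) := by
  unfold xt
  have h1 : Measurable fun ξ : ℝ => ⌊ξ * t / 2⌋ :=
    Int.measurable_floor.comp ((measurable_id.mul_const _).div_const _)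
  exact (measurable_from_top (f := fun z : ℤ => 2 * z + ((t % 2 : ℕ) : ℤ))).comp h1

theorem xt_sub (t : ℕ) (ht : 0 < t) (ξ : ℝ) (j : ℕ) :
    xt t (ξ - 2 * j / t) = xt t ξ - 2 * j := by
  unfold xt
  have ht' : (t : ℝ) ≠ 0 := by positivity
  have h1 : (ξ - 2 * j / t) * t / 2 = ξ * t / 2 - ((j : ℤ) : ℝ) := by
    field_simp
    push_cast
    ring
  rw [h1, Int.floor_sub_intCast]
  ring

section

variable {G : ℝ → ℝ}

theorem int_abs_le (h0 : ∀ x, 0 ≤ G x) (h1 : ∀ x, G x ≤ 1) {a b : ℝ} (hab : a ≤ b) :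
    |∫ x in a..b, G x| ≤ b - a := by
  have h := intervalIntegral.norm_integral_le_of_norm_le_const (a := a) (b := b) (f := G) (C := 1)
    (fun x _ => by rw [Real.norm_eq_abs, abs_of_nonneg (h0 x)]; exact h1 x)
  rw [Real.norm_eq_abs, one_mul, abs_of_nonneg (by linarith : 0 ≤ b - a)] at h
  exact h

theorem bdd_intervalIntegrable (hG : Measurable G) (h0 : ∀ x, 0 ≤ G x) (h1 : ∀ x, G x ≤ 1)
    (a b : ℝ) : IntervalIntegrable G volume a b := by
  refine (intervalIntegrable_const (c := (1 : ℝ))).mono_fun hG.aestronglyMeasurable ?_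
  filter_upwards with x
  rw [Real.norm_eq_abs, abs_of_nonneg (h0 x), norm_one]
  exact h1 x

theorem shift_le (hG : Measurable G) (h0 : ∀ x, 0 ≤ G x) (h1 : ∀ x, G x ≤ 1) {v c : ℝ}
    (hc : 0 ≤ c) : |(∫ x in (0 : ℝ)..v, G (x - c)) - ∫ x in (0 : ℝ)..v, G x| ≤ 2 * c := by
  rw [intervalIntegral.integral_comp_sub_right]
  have hi := bdd_intervalIntegrable hG h0 h1
  have e1 := intervalIntegral.integral_add_adjacent_intervals (hi (0 - c) 0) (hi 0 (v - c))
  have e2 := intervalIntegral.integral_add_adjacent_intervals (hi 0 (v - c)) (hi (v - c) v)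
  have b1 := int_abs_le h0 h1 (by linarith : 0 - c ≤ 0)
  have b2 := int_abs_le h0 h1 (by linarith : v - c ≤ v)
  rw [abs_le] at *
  constructor <;> linarith [b1.1, b1.2, b2.1, b2.2]

end

section

variable {F : ℕ → ℤ → ℝ}

theorem int_step (h0 : ∀ t x, 0 ≤ F t x) (h1 : ∀ t x, F t x ≤ 1) {t : ℕ} (ht : 0 < t) (M : ℕ) :
    ∫ ξ in (0 : ℝ)..(2 * M / t), F t (xt t ξ) =
      2 / t * ∑ m ∈ range M, F t (2 * m + ((t % 2 : ℕ) : ℤ)) := by
  have ht' : (0 : ℝ) < t := by exact_mod_cast ht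
  have hi : ∀ a b : ℝ, IntervalIntegrable (fun ξ => F t (xt t ξ)) volume a b :=
    bdd_intervalIntegrable
      ((measurable_from_top (f := F t)).comp (measurable_xt t)) (fun _ => h0 _ _) fun _ => h1 _ _
  induction M with
  | zero => simp
  | succ M ih =>
    rw [← intervalIntegral.integral_add_adjacent_intervals (hi 0 (2 * M / t)) (hi _ _), ih,
      sum_range_succ, mul_add]
    congr 1
    have h2 : ∫ ξ in (2 * M / t : ℝ)..(2 * ((M + 1 : ℕ) : ℝ) / t), F t (xt t ξ) =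
        ∫ ξ in (2 * M / t : ℝ)..(2 * ((M + 1 : ℕ) : ℝ) / t),
          F t (2 * M + ((t % 2 : ℕ) : ℤ)) := by
      have hle : (2 * M / t : ℝ) ≤ 2 * ((M + 1 : ℕ) : ℝ) / t := by
        push_cast
        gcongr
        linarith
      rw [intervalIntegral.integral_of_le hle, intervalIntegral.integral_of_le hle,
        integral_Ioc_eq_integral_Ioo, integral_Ioc_eq_integral_Ioo]
      refine setIntegral_congr_fun measurableSet_Ioo fun ξ hξ => ?_
      have h3 : ⌊ξ * t / 2⌋ = (M : ℤ) := by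
        rw [Int.floor_eq_iff]
        obtain ⟨h4, h5⟩ := hξ
        rw [div_lt_iff₀ ht'] at h4
        rw [lt_div_iff₀ ht'] at h5
        push_cast at h5 ⊢
        constructor <;> linarith
      simp only [xt, h3]
    rw [h2, intervalIntegral.integral_const, smul_eq_mul]
    congr 1
    push_cast
    field_simp
    ring

theorem sum_int (h0 : ∀ t x, 0 ≤ F t x) (h1 : ∀ t x, F t x ≤ 1) {v : ℝ} (hv : 0 < v) {t : ℕ}
    (ht : 0 < t) :
    |(∑ x ∈ (Icc (0 : ℤ) ⌊v * t⌋).filter (fun x => x ≡ t [ZMOD 2]), 2 / (t : ℝ) * F t x) -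
      ∫ ξ in (0 : ℝ)..v, F t (xt t ξ)| ≤ 4 / t := by
  have ht' : (0 : ℝ) < t := by exact_mod_cast ht
  have hm : Measurable fun ξ => F t (xt t ξ) :=
    (measurable_from_top (f := F t)).comp (measurable_xt t)
  have hi : ∀ a b : ℝ, IntervalIntegrable (fun ξ => F t (xt t ξ)) volume a b :=
    bdd_intervalIntegrable hm (fun _ => h0 _ _) fun _ => h1 _ _
  set M := ⌊v * t / 2⌋₊ with hM
  have hM1 : (M : ℝ) ≤ v * t / 2 := Nat.floor_le (by positivity)
  have hM2 : v * t / 2 < M + 1 := Nat.lt_floor_add_one _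
  set r : ℤ := ((t % 2 : ℕ) : ℤ) with hr
  have hr01 : r = 0 ∨ r = 1 := by omega
  let e : ℕ → ℤ := fun m => 2 * m + r
  have he : Function.Injective e := fun a b h => by
    have : 2 * (a : ℤ) + r = 2 * b + r := h
    omega
  set Sx := (Icc (0 : ℤ) ⌊v * t⌋).filter (fun x => x ≡ t [ZMOD 2]) with hSx
  have hsub1 : (range M).image e ⊆ Sx := by
    intro x hx
    obtain ⟨m, hm, rfl⟩ := mem_image.1 hx
    rw [mem_range] at hm
    have h2 : ((2 * m + r : ℤ) : ℝ) ≤ v * t := by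
      have h3 : (m : ℝ) + 1 ≤ M := by exact_mod_cast hm
      have h4 : (r : ℝ) ≤ 1 := by rcases hr01 with h | h <;> rw [h] <;> norm_num
      push_cast
      linarith
    rw [hSx, mem_filter, mem_Icc]
    refine ⟨⟨by change 0 ≤ 2 * (m : ℤ) + r; omega, Int.le_floor.2 h2⟩, ?_⟩
    change (2 * (m : ℤ) + r) % 2 = (t : ℤ) % 2
    omega
  have hsub2 : Sx ⊆ (range (M + 1)).image e := by
    intro x hx
    rw [hSx, mem_filter, mem_Icc, Int.le_floor] at hx
    obtain ⟨⟨h2, h3⟩, h4⟩ := hx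
    have h5 : x % 2 = (t : ℤ) % 2 := h4
    refine mem_image.2 ⟨((x - r) / 2).toNat, ?_, ?_⟩
    · rw [mem_range]
      have h6 : (x : ℝ) < 2 * (M + 1) := by linarith
      have h7 : x < 2 * ((M : ℤ) + 1) := by exact_mod_cast h6
      omega
    · change 2 * (((x - r) / 2).toNat : ℤ) + r = x
      omega
  have hnn : ∀ x, 0 ≤ 2 / (t : ℝ) * F t x := fun x => mul_nonneg (by positivity) (h0 _ _)
  have s1 : 2 / (t : ℝ) * ∑ m ∈ range M, F t (2 * m + r) ≤ ∑ x ∈ Sx, 2 / (t : ℝ) * F t x := by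
    rw [mul_sum, ← sum_image (f := fun x => 2 / (t : ℝ) * F t x) (g := e)
      (fun a _ b _ h => he h)]
    exact sum_le_sum_of_subset_of_nonneg hsub1 fun x _ _ => hnn x
  have s2 : ∑ x ∈ Sx, 2 / (t : ℝ) * F t x ≤
      2 / (t : ℝ) * ∑ m ∈ range M, F t (2 * m + r) + 2 / t := by
    have h2 : ∑ x ∈ Sx, 2 / (t : ℝ) * F t x ≤ ∑ m ∈ range (M + 1), 2 / (t : ℝ) * F t (e m) := by
      rw [← sum_image (f := fun x => 2 / (t : ℝ) * F t x) (g := e) (fun a _ b _ h => he h)]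
      exact sum_le_sum_of_subset_of_nonneg hsub2 fun x _ _ => hnn x
    rw [sum_range_succ] at h2
    have h5 : ∑ m ∈ range M, 2 / (t : ℝ) * F t (e m) =
        2 / (t : ℝ) * ∑ m ∈ range M, F t (2 * m + r) := by rw [mul_sum]
    have h3 : 2 / (t : ℝ) * F t (e M) ≤ 2 / (t : ℝ) * 1 :=
      mul_le_mul_of_nonneg_left (h1 _ _) (by positivity)
    linarith
  have i1 := int_step h0 h1 ht M
  have i2 := intervalIntegral.integral_add_adjacent_intervals (hi 0 (2 * M / t)) (hi (2 * M / t) v)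
  have hle : (2 * M / t : ℝ) ≤ v := by rw [div_le_iff₀ ht']; linarith
  have i3 := int_abs_le (G := fun ξ => F t (xt t ξ)) (fun _ => h0 _ _) (fun _ => h1 _ _) hle
  have hle2 : v - 2 * M / t ≤ 2 / t := by
    rw [sub_le_iff_le_add, ← add_div, le_div_iff₀ ht']
    linarith
  have h44 : (4 : ℝ) / t = 2 / t + 2 / t := by ring
  rw [abs_le] at i3 ⊢
  rw [h44]
  constructor <;> linarith [i3.1, i3.2]

theorem avg_int (h0 : ∀ t x, 0 ≤ F t x) (h1 : ∀ t x, F t x ≤ 1) {v : ℝ} {t : ℕ}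
    (ht : 0 < t) {L : ℕ} (hL : 0 < L) :
    |(∫ ξ in (0 : ℝ)..v, 1 / (L : ℝ) * ∑ j ∈ range L, F t (xt t ξ - 2 * j)) -
      ∫ ξ in (0 : ℝ)..v, F t (xt t ξ)| ≤ 4 * L / t := by
  have ht' : (0 : ℝ) < t := by exact_mod_cast ht
  have hL' : (0 : ℝ) < L := by exact_mod_cast hL
  have hm : Measurable fun ξ => F t (xt t ξ) :=
    (measurable_from_top (f := F t)).comp (measurable_xt t)
  have hj : ∀ j : ℕ, (∫ ξ in (0 : ℝ)..v, F t (xt t ξ - 2 * j)) =
      ∫ ξ in (0 : ℝ)..v, (fun ξ => F t (xt t ξ)) (ξ - 2 * j / t) := by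
    intro j
    refine intervalIntegral.integral_congr fun ξ _ => ?_
    change F t (xt t ξ - 2 * j) = F t (xt t (ξ - 2 * j / t))
    rw [xt_sub t ht]
  have hij : ∀ j : ℕ, IntervalIntegrable (fun ξ => F t (xt t ξ - 2 * j)) volume 0 v := by
    intro j
    exact bdd_intervalIntegrable ((measurable_from_top (f := fun z => F t (z - 2 * j))).comp
      (measurable_xt t)) (fun _ => h0 _ _) (fun _ => h1 _ _) _ _
  rw [intervalIntegral.integral_const_mul, intervalIntegral.integral_finsetSum fun j _ => hij j]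
  simp only [hj]
  have hb : ∀ j ∈ range L, |(∫ ξ in (0 : ℝ)..v, (fun ξ => F t (xt t ξ)) (ξ - 2 * j / t)) -
      ∫ ξ in (0 : ℝ)..v, F t (xt t ξ)| ≤ 4 * L / t := by
    intro j hj
    rw [mem_range] at hj
    refine (shift_le hm (fun _ => h0 _ _) (fun _ => h1 _ _) (by positivity)).trans ?_
    rw [← mul_div_assoc, div_le_div_iff_of_pos_right ht']
    have : (j : ℝ) ≤ L := by exact_mod_cast hj.le
    linarith
  set I := ∫ ξ in (0 : ℝ)..v, F t (xt t ξ) with hI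
  have h2 : 1 / (L : ℝ) * ∑ j ∈ range L,
      (∫ ξ in (0 : ℝ)..v, (fun ξ => F t (xt t ξ)) (ξ - 2 * j / t)) - I =
      1 / (L : ℝ) * ∑ j ∈ range L,
        ((∫ ξ in (0 : ℝ)..v, (fun ξ => F t (xt t ξ)) (ξ - 2 * j / t)) - I) := by
    rw [sum_sub_distrib, sum_const, card_range, nsmul_eq_mul, mul_sub, ← mul_assoc, one_div,
      inv_mul_cancel₀ hL'.ne', one_mul]
  rw [h2, abs_mul, abs_of_pos (by positivity : (0 : ℝ) < 1 / L)]
  have h3 := (abs_sum_le_sum_abs (fun j : ℕ =>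
    (∫ ξ in (0 : ℝ)..v, (fun ξ => F t (xt t ξ)) (ξ - 2 * j / t)) - I) (range L)).trans
      (sum_le_sum hb)
  rw [sum_const, card_range, nsmul_eq_mul] at h3
  calc 1 / (L : ℝ) * _ ≤ 1 / (L : ℝ) * (L * (4 * L / t)) :=
        mul_le_mul_of_nonneg_left h3 (by positivity)
    _ = 4 * L / t := by field_simp

theorem frame (h0 : ∀ t x, 0 ≤ F t x) (h1 : ∀ t x, F t x ≤ 1) {v : ℝ} (hv : 0 < v)
    {g : ℝ → ℝ} (hg : Measurable g) (hg0 : ∀ ξ, 0 ≤ g ξ) (hg1 : ∀ ξ, g ξ ≤ 1)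
    (H : ∀ᵐ ξ ∂(volume.restrict (Set.Ioc 0 v)), ∀ ε > 0, ∀ᶠ L : ℕ in atTop, ∀ᶠ t : ℕ in atTop,
      |1 / (L : ℝ) * ∑ j ∈ range L, F t (xt t ξ - 2 * j) - g ξ| ≤ ε) :
    Tendsto (fun t : ℕ => ∑ x ∈ (Icc (0 : ℤ) ⌊v * t⌋).filter (fun x => x ≡ t [ZMOD 2]),
      2 / (t : ℝ) * F t x) atTop (𝓝 (∫ ξ in (0 : ℝ)..v, g ξ)) := by
  set μ : Measure ℝ := volume.restrict (Set.Ioc 0 v) with hμ
  have hμfin : μ Set.univ ≠ ⊤ := by
    rw [hμ, Measure.restrict_apply_univ]
    exact measure_Ioc_lt_top.ne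
  let A : ℕ → ℕ → ℝ → ℝ := fun L t ξ => 1 / (L : ℝ) * ∑ j ∈ range L, F t (xt t ξ - 2 * j)
  have hAm : ∀ L t, Measurable (A L t) := by
    intro L t
    refine Measurable.const_mul (Finset.measurable_sum _ fun j _ => ?_) _
    exact (measurable_from_top (f := fun z => F t (z - 2 * j))).comp (measurable_xt t)
  have hA0 : ∀ L t ξ, 0 ≤ A L t ξ := fun L t ξ =>
    mul_nonneg (by positivity) (sum_nonneg fun _ _ => h0 _ _)
  have hA1 : ∀ L t ξ, A L t ξ ≤ 1 := by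
    intro L t ξ
    rcases Nat.eq_zero_or_pos L with rfl | hL
    · simp [A]
    have hL' : (0 : ℝ) < L := by exact_mod_cast hL
    have h2 : ∑ j ∈ range L, F t (xt t ξ - 2 * j) ≤ L := by
      refine (sum_le_sum fun j _ => h1 t _).trans ?_
      simp
    calc 1 / (L : ℝ) * _ ≤ 1 / (L : ℝ) * L := mul_le_mul_of_nonneg_left h2 (by positivity)
      _ = 1 := by field_simp
  let φ : ℕ → ℕ → ℝ → ENNReal := fun L t ξ => ENNReal.ofReal |A L t ξ - g ξ|
  have hφm : ∀ L t, Measurable (φ L t) := fun L t =>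
    (((hAm L t).sub hg).abs).ennreal_ofReal
  have hφ1 : ∀ L t ξ, φ L t ξ ≤ 1 := by
    intro L t ξ
    refine ENNReal.ofReal_le_one.2 ?_
    rw [abs_le]
    constructor <;> linarith [hA0 L t ξ, hA1 L t ξ, hg0 ξ, hg1 ξ]
  have hfin1 : ∫⁻ _, (1 : ENNReal) ∂μ ≠ ⊤ := by
    rw [lintegral_const, one_mul]; exact hμfin
  have hlim : ∀ L, limsup (fun t => ∫⁻ ξ, φ L t ξ ∂μ) atTop ≤
      ∫⁻ ξ, limsup (fun t => φ L t ξ) atTop ∂μ := fun L =>
    limsup_lintegral_le (fun _ => 1) (hφm L) (fun t => Eventually.of_forall (hφ1 L t)) hfin1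
  have hI : Tendsto (fun L => ∫⁻ ξ, limsup (fun t => φ L t ξ) atTop ∂μ) atTop (𝓝 0) := by
    have h2 := tendsto_lintegral_of_dominated_convergence (μ := μ) (F := fun L ξ =>
      limsup (fun t => φ L t ξ) atTop) (f := fun _ => 0) (fun _ => 1)
      (fun L => Measurable.limsup (hφm L))
      (fun L => Eventually.of_forall fun ξ => limsup_le_of_le (h := Eventually.of_forall fun t =>
        hφ1 L t ξ)) hfin1 ?_
    · simpa using h2
    · filter_upwards [H] with ξ hξ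
      rw [ENNReal.tendsto_nhds_zero]
      intro ε hε
      obtain ⟨δ, hδ0, hδ⟩ : ∃ δ : ℝ, 0 < δ ∧ ENNReal.ofReal δ ≤ ε := by
        rcases eq_or_ne ε ⊤ with rfl | hε'
        · exact ⟨1, one_pos, le_top⟩
        · exact ⟨ε.toReal, ENNReal.toReal_pos hε.ne' hε', by rw [ENNReal.ofReal_toReal hε']⟩
      filter_upwards [hξ δ hδ0] with L hL
      refine limsup_le_of_le (h := ?_)
      filter_upwards [hL] with t ht
      exact (ENNReal.ofReal_le_ofReal ht).trans hδ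
  rw [Metric.tendsto_atTop]
  intro ε hε
  obtain ⟨L, hL, hLpos⟩ : ∃ L : ℕ, (∫⁻ ξ, limsup (fun t => φ L t ξ) atTop ∂μ) <
      ENNReal.ofReal (ε / 2) ∧ 0 < L := by
    have h2 := (hI.eventually (gt_mem_nhds (ENNReal.ofReal_pos.2 (by linarith : 0 < ε / 2)))).and
      (eventually_gt_atTop 0)
    exact h2.exists
  have h3 : ∀ᶠ t in atTop, ∫⁻ ξ, φ L t ξ ∂μ < ENNReal.ofReal (ε / 2) :=
    eventually_lt_of_limsup_lt ((hlim L).trans_lt hL)
  have h4 : ∀ᶠ t : ℕ in atTop, (4 * L + 4 : ℝ) / t < ε / 2 := by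
    have := (tendsto_const_div_atTop_nhds_zero_nat (4 * L + 4 : ℝ)).eventually
      (gt_mem_nhds (by linarith : 0 < ε / 2))
    exact this
  obtain ⟨T, hT⟩ := eventually_atTop.1 (h3.and (h4.and (eventually_gt_atTop 0)))
  refine ⟨T, fun t ht => ?_⟩
  obtain ⟨k1, k2, k3⟩ := hT t ht
  have b1 := sum_int h0 h1 hv k3
  have b2 := avg_int h0 h1 (v := v) k3 hLpos
  have hiA : IntervalIntegrable (A L t) volume 0 v :=
    bdd_intervalIntegrable (hAm L t) (hA0 L t) (hA1 L t) _ _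
  have hig : IntervalIntegrable g volume 0 v := bdd_intervalIntegrable hg hg0 hg1 _ _
  have b3 : |(∫ ξ in (0 : ℝ)..v, A L t ξ) - ∫ ξ in (0 : ℝ)..v, g ξ| < ε / 2 := by
    rw [← intervalIntegral.integral_sub hiA hig, intervalIntegral.integral_of_le hv.le]
    have h5 : |∫ ξ in Set.Ioc 0 v, (A L t ξ - g ξ)| ≤ ∫ ξ in Set.Ioc 0 v, |A L t ξ - g ξ| := by
      have := norm_integral_le_integral_norm (μ := volume.restrict (Set.Ioc 0 v))
        (fun ξ => A L t ξ - g ξ)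
      simpa [Real.norm_eq_abs] using this
    refine h5.trans_lt ?_
    have hmeas : AEStronglyMeasurable (fun ξ => |A L t ξ - g ξ|)
        (volume.restrict (Set.Ioc 0 v)) := ((hAm L t).sub hg).abs.aestronglyMeasurable
    rw [integral_eq_lintegral_of_nonneg_ae (Eventually.of_forall fun _ => abs_nonneg _) hmeas]
    refine (ENNReal.toReal_lt_of_lt_ofReal ?_)
    exact k1
  rw [Real.dist_eq]
  have h44 : (4 * L + 4 : ℝ) / t = 4 * L / t + 4 / t := by ring
  rw [h44] at k2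
  rw [abs_lt] at b3 ⊢
  rw [abs_le] at b1 b2
  constructor
  · linarith [b1.1, b2.2, b3.1]
  · linarith [b1.2, b2.1, b3.2]

end

end Pool.Agent.R266.FC
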