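import Mathlib
import Pool.Agent.R266.FC.Defs

set_option autoImplicit false

/-!
# Recurrences in time and in space
-/

namespace Pool.Agent.R266.FC

open Finset Complex

/-- The unnormalised real and imaginary parts of `a (x, n + 1)`. -/
noncomputable def P : ℕ → (ℤ → ℝ) × (ℤ → ℝ)
  | 0 => (fun _ => 0, fun x => if x = 1 then 1 else 0)
  | n + 1 => (fun x => (P n).2 (x + 1) + (P n).1 (x + 1),
      fun x => (P n).2 (x - 1) - (P n).1 (x - 1))

theorem P_zero1 (x : ℤ) : (P 0).1 x = 0 := rfl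
theorem P_zero2 (x : ℤ) : (P 0).2 x = if x = 1 then 1 else 0 := rfl
theorem P_succ1 (n : ℕ) (x : ℤ) : (P (n + 1)).1 x = (P n).2 (x + 1) + (P n).1 (x + 1) := rfl
theorem P_succ2 (n : ℕ) (x : ℤ) : (P (n + 1)).2 x = (P n).2 (x - 1) - (P n).1 (x - 1) := rfl

/-- The sum over the paths with last step `b`. -/
noncomputable def Z (b : Bool) (n : ℕ) (x : ℤ) : ℂ :=
  ∑ s : Fin (n + 1) → Bool, if s 0 = true ∧ endpt s = x ∧ s (Fin.last n) = b then
    I * (-I) ^ turns s else 0

theorem turns_snoc {n : ℕ} (s : Fin (n + 1) → Bool) (b : Bool) :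
    turns (Fin.snoc s b : Fin (n + 2) → Bool) =
      turns s + if s (Fin.last n) = b then 0 else 1 := by
  unfold turns
  rw [Fin.sum_univ_castSucc]
  congr 1
  · refine sum_congr rfl fun i _ => ?_
    rw [Fin.succ_castSucc, Fin.snoc_castSucc, Fin.snoc_castSucc]
  · rw [Fin.succ_last, Fin.snoc_castSucc, Fin.snoc_last]

theorem endpt_snoc {n : ℕ} (s : Fin (n + 1) → Bool) (b : Bool) :
    endpt (Fin.snoc s b : Fin (n + 2) → Bool) = endpt s + if b then 1 else -1 := by
  unfold endpt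
  rw [Fin.sum_univ_castSucc]
  congr 1
  · refine sum_congr rfl fun i _ => ?_
    rw [Fin.snoc_castSucc]
  · rw [Fin.snoc_last]

theorem Z_succ (b : Bool) (n : ℕ) (x : ℤ) :
    Z b (n + 1) x = Z b n (x - if b then 1 else -1) + (-I) * Z (!b) n (x - if b then 1 else -1) := by
  unfold Z
  rw [← (Fin.snocEquiv (fun _ : Fin (n + 2) => Bool)).sum_comp, Fintype.sum_prod_type,
    mul_sum, ← sum_add_distrib]
  rw [Fintype.sum_bool]
  have key : ∀ (c : Bool) (s : Fin (n + 1) → Bool),
      (if ((Fin.snocEquiv (fun _ : Fin (n + 2) => Bool)) (c, s)) 0 = true ∧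
        endpt ((Fin.snocEquiv (fun _ : Fin (n + 2) => Bool)) (c, s)) = x ∧
        ((Fin.snocEquiv (fun _ : Fin (n + 2) => Bool)) (c, s)) (Fin.last (n + 1)) = b then
        I * (-I) ^ turns ((Fin.snocEquiv (fun _ : Fin (n + 2) => Bool)) (c, s)) else 0) =
      if c = b ∧ s 0 = true ∧ endpt s = x - (if b then 1 else -1) then
        I * (-I) ^ (turns s + if s (Fin.last n) = b then 0 else 1) else 0 := by
    intro c s
    have h1 : ((Fin.snocEquiv (fun _ : Fin (n + 2) => Bool)) (c, s)) =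
        (Fin.snoc s c : Fin (n + 2) → Bool) := rfl
    rw [h1, turns_snoc, endpt_snoc, Fin.snoc_last]
    have h2 : (Fin.snoc s c : Fin (n + 2) → Bool) 0 = s 0 := by
      have h3 : (0 : Fin (n + 2)) = Fin.castSucc 0 := rfl
      rw [h3, Fin.snoc_castSucc]
    rw [h2]
    by_cases hc : c = b
    · subst hc
      have h3 : (endpt s + (if c = true then 1 else -1) = x) ↔
          (endpt s = x - (if c = true then 1 else -1)) := by
        constructor <;> intro h <;> linarith
      simp only [h3, and_true, true_and]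
    · simp [hc]
  simp only [key]
  rw [← sum_add_distrib]
  refine sum_congr rfl fun s _ => ?_
  rcases b with _ | _ <;> rcases h : s (Fin.last n) with _ | _ <;>
    by_cases h1 : s 0 = true <;> simp [h1, pow_succ] <;> split_ifs <;> ring_nf

theorem Z_eq (n : ℕ) : ∀ x : ℤ, Z false n x = ((P n).1 x : ℂ) ∧ Z true n x = I * ((P n).2 x : ℂ) := by
  induction n with
  | zero =>
    intro x
    have h : ∀ b, Z b 0 x = if b = true ∧ x = 1 then I else 0 := by
      intro b
      unfold Z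
      rw [← (Equiv.funUnique (Fin 1) Bool).symm.sum_comp, Fintype.sum_bool]
      have ht : ∀ s : Fin (0 + 1) → Bool, turns s = 0 := fun s => by simp [turns]
      have he : ∀ c : Bool, endpt ((Equiv.funUnique (Fin 1) Bool).symm c : Fin (0 + 1) → Bool) =
          if c then 1 else -1 := fun c => by
        unfold endpt
        simp
      have hv : ∀ (c : Bool) (i : Fin 1), ((Equiv.funUnique (Fin 1) Bool).symm c) i = c :=
        fun c i => rfl
      rw [ht, ht, he, he]
      have e1 : ((Equiv.funUnique (Fin 1) Bool).symm true : Fin (0 + 1) → Bool) 0 = true := rfl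
      have e2 : ((Equiv.funUnique (Fin 1) Bool).symm false : Fin (0 + 1) → Bool) 0 = false := rfl
      have e3 : ((Equiv.funUnique (Fin 1) Bool).symm true : Fin (0 + 1) → Bool) (Fin.last 0) =
        true := rfl
      rw [e1, e2, e3]
      rcases b with _ | _ <;> simp [eq_comm]
    rw [h, h, P_zero1, P_zero2]
    constructor
    · simp
    · by_cases hx : x = 1 <;> simp [hx]
  | succ n ih =>
    intro x
    rw [Z_succ, Z_succ, P_succ1, P_succ2]
    have h1 := ih (x + 1)
    have h2 := ih (x - 1)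
    constructor
    · simp only [Bool.not_false, Bool.false_eq_true, if_false, sub_neg_eq_add]
      rw [h1.1, h1.2]
      push_cast
      linear_combination (-((P n).2 (x + 1) : ℂ)) * I_mul_I
    · simp only [Bool.not_true, if_true]
      rw [h2.1, h2.2]
      push_cast
      ring

theorem a_eq (n : ℕ) (x : ℤ) : a x (n + 1) =
    (((2 : ℝ) ^ ((1 - ((n + 1 : ℕ) : ℝ)) / 2) : ℝ) : ℂ) *
      (((P n).1 x : ℂ) + I * ((P n).2 x : ℂ)) := by
  obtain ⟨h1, h2⟩ := Z_eq n x
  rw [← h1, ← h2]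
  change _ * I * _ = _
  rw [mul_assoc]
  congr 1
  unfold Z
  rw [← sum_add_distrib, mul_sum, sum_filter]
  refine sum_congr rfl fun s _ => ?_
  by_cases h3 : s 0 = true ∧ endpt s = x
  · rcases h4 : s (Fin.last n) with _ | _ <;> simp [h3]
  · rw [if_neg h3, if_neg (fun h => h3 ⟨h.1, h.2.1⟩), if_neg (fun h => h3 ⟨h.1, h.2.1⟩), add_zero]

/-- The summand. -/
noncomputable def F (t : ℕ) (x : ℤ) : ℝ :=
  (P (t - 1)).2 x ^ 2 / ((P (t - 1)).1 x ^ 2 + (P (t - 1)).2 x ^ 2)

theorem F_nonneg (t : ℕ) (x : ℤ) : 0 ≤ F t x := by unfold F; positivity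

theorem F_le_one (t : ℕ) (x : ℤ) : F t x ≤ 1 := by
  unfold F
  refine div_le_one_of_le₀ ?_ (by positivity)
  nlinarith [sq_nonneg ((P (t - 1)).1 x)]

theorem summand_eq (n : ℕ) (x : ℤ) :
    ‖((a x (n + 1)).im : ℂ) / a x (n + 1)‖ ^ 2 = F (n + 1) x := by
  rw [a_eq]
  set c : ℝ := (2 : ℝ) ^ ((1 - ((n + 1 : ℕ) : ℝ)) / 2) with hc
  have hc0 : 0 < c := Real.rpow_pos_of_pos two_pos _
  set p := (P n).1 x with hp
  set q := (P n).2 x with hq
  have h1 : ((c : ℂ) * ((p : ℂ) + I * (q : ℂ))).im = c * q := by simp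
  rw [h1, norm_div, div_pow, norm_real, norm_mul, norm_mul, norm_real, mul_pow, mul_pow]
  have h2 : ‖(p : ℂ) + I * (q : ℂ)‖ ^ 2 = p ^ 2 + q ^ 2 := by
    rw [← normSq_eq_norm_sq, normSq_apply]
    simp
    ring
  rw [h2]
  unfold F
  rw [Nat.add_sub_cancel, ← hp, ← hq, Real.norm_eq_abs, Real.norm_eq_abs, sq_abs, sq_abs,
    mul_div_mul_left _ _ (by positivity)]

/-- The recurrences in space. -/
theorem space (n : ℕ) : ∀ x : ℤ,
    ((n : ℝ) + x - 1) * ((P n).1 (x - 2) - (P n).1 x) = (2 * x - 2) * (P n).2 x ∧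
    ((n : ℝ) - x + 3) * (P n).2 (x - 2) =
      ((n : ℝ) + 1 - x) * (P n).2 x - 2 * (x - 2) * (P n).1 (x - 2) := by
  induction n with
  | zero =>
    intro x
    rw [P_zero1, P_zero1, P_zero2, P_zero2]
    constructor
    · by_cases hx : x = 1
      · subst hx; simp
      · rw [if_neg hx]; simp
    · by_cases hx : x = 1
      · subst hx; simp
      · by_cases hx3 : x = 3
        · subst hx3; simp
        · rw [if_neg hx, if_neg (by omega)]; simp
  | succ n ih =>
    intro x
    rw [P_succ1, P_succ1, P_succ2, P_succ2]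
    have e1 : x - 2 + 1 = x - 1 := by ring
    have e2 : x - 2 - 1 = x - 3 := by ring
    rw [e1, e2]
    obtain ⟨a1, a2⟩ := ih (x + 1)
    obtain ⟨b1, b2⟩ := ih (x - 1)
    have e3 : x + 1 - 2 = x - 1 := by ring
    have e4 : x - 1 - 2 = x - 3 := by ring
    rw [e3] at a1 a2
    rw [e4] at b1 b2
    push_cast at a1 a2 b1 b2 ⊢
    constructor
    · linear_combination a1 + a2
    · linear_combination b2 - b1

theorem far (n : ℕ) : ∀ x : ℤ, (n : ℤ) + 1 ≤ x →
    (P n).1 x = 0 ∧ (P n).2 x = if x = (n : ℤ) + 1 then 1 else 0 := by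
  induction n with
  | zero =>
    intro x hx
    exact ⟨rfl, by rw [P_zero2]; simp⟩
  | succ n ih =>
    intro x hx
    rw [P_succ1, P_succ2]
    push_cast at hx ⊢
    obtain ⟨h1, h2⟩ := ih (x + 1) (by omega)
    obtain ⟨h3, h4⟩ := ih (x - 1) (by omega)
    rw [h1, h2, h3, h4, if_neg (by omega)]
    refine ⟨by simp, ?_⟩
    by_cases hx2 : x = (n : ℤ) + 1 + 1
    · rw [if_pos hx2, if_pos (by omega)]; simp
    · rw [if_neg hx2, if_neg (by omega)]; simp

/-- The amplitude does not vanish. -/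
theorem ne_zero (n : ℕ) (k : ℕ) (hk : 2 * k ≤ n + 1) :
    ¬ ((P n).1 ((n : ℤ) + 1 - 2 * k) = 0 ∧ (P n).2 ((n : ℤ) + 1 - 2 * k) = 0) := by
  induction k with
  | zero =>
    rintro ⟨-, h⟩
    rw [(far n _ (by simp)).2, if_pos (by simp)] at h
    exact one_ne_zero h
  | succ k ih =>
    intro h
    apply ih (by omega)
    set x : ℤ := (n : ℤ) + 1 - 2 * k with hx
    have e1 : (n : ℤ) + 1 - 2 * ((k + 1 : ℕ) : ℤ) = x - 2 := by rw [hx]; push_cast; ring
    rw [e1] at h
    obtain ⟨h1, h2⟩ := space n x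
    rw [h.1, h.2] at h2
    rw [h.1] at h1
    have hxr : (x : ℝ) = (n : ℝ) + 1 - 2 * k := by rw [hx]; push_cast; ring
    have hkn : (2 : ℝ) * (k + 1) ≤ n + 1 := by exact_mod_cast hk
    rcases Nat.eq_zero_or_pos k with hk0 | hk0
    · exfalso
      subst hk0
      have hw := (far n x (by rw [hx]; simp)).2
      have hu := (far n x (by rw [hx]; simp)).1
      rw [if_pos (by rw [hx]; simp)] at hw
      rw [hw, hu, hxr] at h1
      simp at h1
      simp at hkn
      linarith
    · have h3 : ((n : ℝ) + 1 - x) ≠ 0 := by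
        rw [hxr]
        have : (1 : ℝ) ≤ k := by exact_mod_cast hk0
        intro h; linarith
      have h4 : (P n).2 x = 0 := by
        have h5 : ((n : ℝ) + 1 - x) * (P n).2 x = 0 := by linarith
        exact (mul_eq_zero.1 h5).resolve_left h3
      rw [h4] at h1
      have h6 : ((n : ℝ) + x - 1) ≠ 0 := by
        rw [hxr]
        have : (0 : ℝ) ≤ n := Nat.cast_nonneg n
        intro h; linarith
      have h7 : ((n : ℝ) + x - 1) * (0 - (P n).1 x) = 0 := by linarith
      exact ⟨by have := (mul_eq_zero.1 h7).resolve_left h6; linarith, h4⟩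

theorem S_eq (v : ℝ) (t : ℕ) (ht : 0 < t) : S v t =
    ∑ x ∈ (Icc (0 : ℤ) ⌊v * t⌋).filter (fun x => x ≡ t [ZMOD 2]), 2 / (t : ℝ) * F t x := by
  obtain ⟨n, rfl⟩ : ∃ n, t = n + 1 := ⟨t - 1, by omega⟩
  unfold S
  exact sum_congr rfl fun x _ => by rw [summand_eq]

end Pool.Agent.R266.FC
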