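import Mathlib
import Pool.Agent.R266.FC.Rec
import Pool.Agent.R266.FC.Frame
import Pool.Agent.R266.FC.Equi

set_option autoImplicit false

/-!
# The elliptic region
-/

namespace Pool.Agent.R266.FC

open Finset Filter Topology Complex ComplexConjugate

/-- The coefficients of the recurrence in space. -/
noncomputable def kap (t : ℕ) (y : ℤ) : ℝ := 2 * (y - 1) / (t + y - 2)

@[inherit_doc kap]
noncomputable def alp (t : ℕ) (y : ℤ) : ℝ := (t - y) / (t - y + 2)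

@[inherit_doc kap]
noncomputable def bet (t : ℕ) (y : ℤ) : ℝ := 2 * (y - 2) / (t - y + 2)

theorem step {t : ℕ} (ht : 0 < t) (y : ℤ) (h1 : (t : ℝ) + y - 2 ≠ 0) (h2 : (t : ℝ) - y + 2 ≠ 0) :
    (P (t - 1)).1 (y - 2) = (P (t - 1)).1 y + kap t y * (P (t - 1)).2 y ∧
    (P (t - 1)).2 (y - 2) = alp t y * (P (t - 1)).2 y - bet t y * (P (t - 1)).1 (y - 2) := by
  obtain ⟨n, rfl⟩ : ∃ n, t = n + 1 := ⟨t - 1, by omega⟩
  rw [Nat.add_sub_cancel]
  obtain ⟨e1, e2⟩ := space n y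
  push_cast at h1 h2
  unfold kap alp bet
  push_cast
  constructor
  · field_simp
    linear_combination e1
  · field_simp
    linear_combination e2

theorem xt_bd (t : ℕ) (ξ : ℝ) : |(xt t ξ : ℝ) - ξ * t| ≤ 2 := by
  unfold xt
  have h1 := Int.floor_le (ξ * t / 2)
  have h2 := Int.lt_floor_add_one (ξ * t / 2)
  have h3 : (((t % 2 : ℕ) : ℤ) : ℝ) ≤ 1 := by
    have : ((t % 2 : ℕ) : ℤ) ≤ 1 := by omega
    exact_mod_cast this
  have h4 : (0 : ℝ) ≤ (((t % 2 : ℕ) : ℤ) : ℝ) := by positivity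
  push_cast at h3 h4 ⊢
  rw [abs_le]
  constructor <;> linarith

theorem y_div (ξ : ℝ) (j : ℤ) :
    Tendsto (fun t : ℕ => ((xt t ξ - 2 * j : ℤ) : ℝ) / t) atTop (𝓝 ξ) := by
  have h1 : Tendsto (fun t : ℕ => (2 + 2 * |(j : ℝ)|) / t) atTop (𝓝 0) :=
    tendsto_const_div_atTop_nhds_zero_nat _
  have h2 : Tendsto (fun t : ℕ => ((xt t ξ - 2 * j : ℤ) : ℝ) / t - ξ) atTop (𝓝 0) := by
    refine squeeze_zero_norm' ?_ h1
    filter_upwards [eventually_gt_atTop 0] with t ht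
    have ht' : (0 : ℝ) < t := by exact_mod_cast ht
    rw [Real.norm_eq_abs, div_sub' ht'.ne', abs_div, abs_of_pos ht', div_le_div_iff_of_pos_right ht']
    have h3 := xt_bd t ξ
    have h4 : ((xt t ξ - 2 * j : ℤ) : ℝ) - t * ξ = ((xt t ξ : ℝ) - ξ * t) - 2 * j := by
      push_cast; ring
    rw [h4]
    refine (abs_sub _ _).trans ?_
    rw [abs_mul, abs_two]
    linarith
  have h3 := h2.add_const ξ
  simpa using h3

theorem inv_tend (c : ℝ) : Tendsto (fun t : ℕ => c / t) atTop (𝓝 0) :=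
  tendsto_const_div_atTop_nhds_zero_nat _

theorem kap_tend {ξ : ℝ} (hξ : 0 < ξ) (j : ℤ) :
    Tendsto (fun t : ℕ => kap t (xt t ξ - 2 * j)) atTop (𝓝 (2 * ξ / (1 + ξ))) := by
  have h1 : Tendsto (fun t : ℕ => (2 * (((xt t ξ - 2 * j : ℤ) : ℝ) / t - 1 / t)) /
      (1 + ((xt t ξ - 2 * j : ℤ) : ℝ) / t - 2 / t)) atTop (𝓝 (2 * (ξ - 0) / (1 + ξ - 0))) :=
    (((y_div ξ j).sub (inv_tend 1)).const_mul 2).div
      (((y_div ξ j).const_add 1).sub (inv_tend 2)) (by linarith)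
  rw [sub_zero, sub_zero] at h1
  refine h1.congr' ?_
  filter_upwards [eventually_gt_atTop 0] with t ht
  have ht' : (t : ℝ) ≠ 0 := by exact_mod_cast ht.ne'
  unfold kap
  rw [← mul_div_mul_right _ ((t : ℝ) + _ - 2) (inv_ne_zero ht')]
  congr 1 <;> field_simp

theorem alp_tend {ξ : ℝ} (hξ : ξ < 1) (j : ℤ) :
    Tendsto (fun t : ℕ => alp t (xt t ξ - 2 * j)) atTop (𝓝 1) := by
  have h1 : Tendsto (fun t : ℕ => (1 - ((xt t ξ - 2 * j : ℤ) : ℝ) / t) /
      (1 - ((xt t ξ - 2 * j : ℤ) : ℝ) / t + 2 / t)) atTop (𝓝 ((1 - ξ) / (1 - ξ + 0))) :=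
    ((y_div ξ j).const_sub 1).div
      (((y_div ξ j).const_sub 1).add (inv_tend 2)) (by linarith)
  rw [add_zero, div_self (by linarith)] at h1
  refine h1.congr' ?_
  filter_upwards [eventually_gt_atTop 0] with t ht
  have ht' : (t : ℝ) ≠ 0 := by exact_mod_cast ht.ne'
  unfold alp
  rw [← mul_div_mul_right _ ((t : ℝ) - _ + 2) (inv_ne_zero ht')]
  congr 1 <;> field_simp

theorem bet_tend {ξ : ℝ} (hξ : ξ < 1) (j : ℤ) :
    Tendsto (fun t : ℕ => bet t (xt t ξ - 2 * j)) atTop (𝓝 (2 * ξ / (1 - ξ))) := by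
  have h1 : Tendsto (fun t : ℕ => (2 * (((xt t ξ - 2 * j : ℤ) : ℝ) / t - 2 / t)) /
      (1 - ((xt t ξ - 2 * j : ℤ) : ℝ) / t + 2 / t)) atTop (𝓝 (2 * (ξ - 0) / (1 - ξ + 0))) :=
    (((y_div ξ j).sub (inv_tend 2)).const_mul 2).div
      (((y_div ξ j).const_sub 1).add (inv_tend 2)) (by linarith)
  rw [sub_zero, add_zero] at h1
  refine h1.congr' ?_
  filter_upwards [eventually_gt_atTop 0] with t ht
  have ht' : (t : ℝ) ≠ 0 := by exact_mod_cast ht.ne'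
  unfold bet
  rw [← mul_div_mul_right _ ((t : ℝ) - _ + 2) (inv_ne_zero ht')]
  congr 1 <;> field_simp

/-- The sites lie well inside the light cone. -/
theorem sites {ξ : ℝ} (h0 : 0 < ξ) (h1 : ξ < 1) (j : ℤ) (C : ℝ) :
    ∀ᶠ t : ℕ in atTop, C < ((xt t ξ - 2 * j : ℤ) : ℝ) ∧
      ((xt t ξ - 2 * j : ℤ) : ℝ) + C < t ∧ 0 < t := by
  have hy := y_div ξ j
  have e1 : ∀ᶠ t : ℕ in atTop, ξ / 2 < ((xt t ξ - 2 * j : ℤ) : ℝ) / t :=
    hy.eventually (lt_mem_nhds (by linarith))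
  have e2 : ∀ᶠ t : ℕ in atTop, ((xt t ξ - 2 * j : ℤ) : ℝ) / t < (1 + ξ) / 2 :=
    hy.eventually (gt_mem_nhds (by linarith))
  have e3 : ∀ᶠ t : ℕ in atTop, C / t < ξ / 2 :=
    (inv_tend C).eventually (gt_mem_nhds (by linarith))
  have e4 : ∀ᶠ t : ℕ in atTop, C / t < (1 - ξ) / 2 :=
    (inv_tend C).eventually (gt_mem_nhds (by linarith))
  filter_upwards [e1, e2, e3, e4, eventually_gt_atTop 0] with t a1 a2 a3 a4 ht
  have ht' : (0 : ℝ) < t := by exact_mod_cast ht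
  rw [lt_div_iff₀ ht'] at a1
  rw [div_lt_iff₀ ht'] at a2 a3 a4
  exact ⟨by linarith, by linarith, ht⟩

section Abs

variable {ξ s : ℝ}

/-- The complex coordinate. -/
noncomputable def Lam (ξ s u w : ℝ) : ℂ := (1 + ξ) * u + (ξ + I * s) * w

theorem Lam_im (u w : ℝ) : (Lam ξ s u w).im = s * w := by simp [Lam]

theorem Lam_re (u w : ℝ) : (Lam ξ s u w).re = (1 + ξ) * u + ξ * w := by simp [Lam]

theorem w_le (hs : 0 < s) (u w : ℝ) : |w| ≤ (1 + 1 / s) * ‖Lam ξ s u w‖ := by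
  have h1 := abs_im_le_norm (Lam ξ s u w)
  rw [Lam_im, abs_mul, abs_of_pos hs] at h1
  have h2 : |w| ≤ 1 / s * ‖Lam ξ s u w‖ := by
    rw [one_div_mul_eq_div, le_div_iff₀ hs]
    linarith
  nlinarith [norm_nonneg (Lam ξ s u w)]

theorem u_le (h0 : 0 < ξ) (h1 : ξ < 1) (hs : 0 < s) (u w : ℝ) :
    |u| ≤ (1 + 1 / s) * ‖Lam ξ s u w‖ := by
  have h2 := abs_im_le_norm (Lam ξ s u w)
  rw [Lam_im, abs_mul, abs_of_pos hs] at h2
  have h3 := abs_re_le_norm (Lam ξ s u w)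
  rw [Lam_re] at h3
  have h4 : |w| ≤ 1 / s * ‖Lam ξ s u w‖ := by
    rw [one_div_mul_eq_div, le_div_iff₀ hs]
    linarith
  have h5 : |(1 + ξ) * u| ≤ |(1 + ξ) * u + ξ * w| + |ξ * w| := by
    have := abs_sub ((1 + ξ) * u + ξ * w) (ξ * w)
    rwa [add_sub_cancel_right] at this
  rw [abs_mul, abs_mul, abs_of_pos h0, abs_of_pos (by linarith : 0 < 1 + ξ)] at h5
  have h6 : ξ * |w| ≤ |w| := by nlinarith [abs_nonneg w]
  have h7 : |u| ≤ (1 + ξ) * |u| := by nlinarith [abs_nonneg u]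
  linarith

/-- The multiplier. -/
noncomputable def lam (ξ s : ℝ) : ℂ := 1 - 2 * ξ * (ξ + I * s) / (1 - ξ ^ 2)

theorem lam_re (ξ s : ℝ) : (lam ξ s).re = 1 - 2 * ξ ^ 2 / (1 - ξ ^ 2) := by
  have h : lam ξ s = ((1 - 2 * ξ ^ 2 / (1 - ξ ^ 2) : ℝ) : ℂ) +
      ((-(2 * ξ * s / (1 - ξ ^ 2)) : ℝ) : ℂ) * I := by
    unfold lam
    push_cast
    ring
  rw [h, add_re, ofReal_re, re_ofReal_mul, I_re, mul_zero, add_zero]

theorem lam_im (ξ s : ℝ) : (lam ξ s).im = -(2 * ξ * s / (1 - ξ ^ 2)) := by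
  have h : lam ξ s = ((1 - 2 * ξ ^ 2 / (1 - ξ ^ 2) : ℝ) : ℂ) +
      ((-(2 * ξ * s / (1 - ξ ^ 2)) : ℝ) : ℂ) * I := by
    unfold lam
    push_cast
    ring
  rw [h, add_im, ofReal_im, im_ofReal_mul, I_im, mul_one, zero_add]

theorem norm_lam (h1 : ξ ^ 2 < 1) (hs : s ^ 2 = 1 - 2 * ξ ^ 2) : ‖lam ξ s‖ = 1 := by
  have h2 : ‖lam ξ s‖ ^ 2 = 1 := by
    rw [← normSq_eq_norm_sq, normSq_apply, lam_re, lam_im]
    have h3 : (1 - ξ ^ 2) ≠ 0 := by linarith
    field_simp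
    linear_combination (4 * ξ ^ 2) * hs
  exact (pow_eq_one_iff_of_nonneg (norm_nonneg _) two_ne_zero).1 h2

theorem ell_abs (h0 : 0 < ξ) (h1 : ξ < 1) (hs0 : 0 < s) (hs : s ^ 2 = 1 - 2 * ξ ^ 2)
    {u w kp al be : ℕ → ℕ → ℝ}
    (hstep : ∀ j, ∀ᶠ t in atTop, u (j + 1) t = u j t + kp j t * w j t ∧
      w (j + 1) t = al j t * w j t - be j t * u (j + 1) t)
    (hk : ∀ j, Tendsto (kp j) atTop (𝓝 (2 * ξ / (1 + ξ))))
    (hal : ∀ j, Tendsto (al j) atTop (𝓝 1))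
    (hbe : ∀ j, Tendsto (be j) atTop (𝓝 (2 * ξ / (1 - ξ)))) (j : ℕ) :
    Tendsto (fun t => Lam ξ s (u j t) (w j t) / ‖Lam ξ s (u 0 t) (w 0 t)‖ -
      lam ξ s ^ j * (Lam ξ s (u 0 t) (w 0 t) / ‖Lam ξ s (u 0 t) (w 0 t)‖)) atTop (𝓝 0) := by
  have hsq : ξ ^ 2 < 1 := by nlinarith
  induction j with
  | zero => simp
  | succ j ih =>
    set N : ℕ → ℝ := fun t => ‖Lam ξ s (u 0 t) (w 0 t)‖ with hN
    let δ1 : ℕ → ℂ := fun t => (1 + ξ) - be j t * (ξ + I * s) - lam ξ s * (1 + ξ)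
    let δ2 : ℕ → ℂ := fun t => (1 + ξ) * kp j t + (ξ + I * s) * (al j t - be j t * kp j t) -
      lam ξ s * (ξ + I * s)
    have hc1 : (1 + (ξ : ℂ)) ≠ 0 := by
      have : (1 + ξ : ℝ) ≠ 0 := by linarith
      exact_mod_cast this
    have hc2 : (1 - (ξ : ℂ)) ≠ 0 := by
      have : (1 - ξ : ℝ) ≠ 0 := by linarith
      exact_mod_cast this
    have hc3 : (1 - (ξ : ℂ) ^ 2) ≠ 0 := by
      have : (1 - ξ ^ 2 : ℝ) ≠ 0 := by linarith
      exact_mod_cast this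
    have hsC : (s : ℂ) ^ 2 = 1 - 2 * (ξ : ℂ) ^ 2 := by exact_mod_cast hs
    have hkC : Tendsto (fun t => (kp j t : ℂ)) atTop (𝓝 (2 * ξ / (1 + ξ) : ℂ)) := by
      have := (continuous_ofReal.tendsto (2 * ξ / (1 + ξ))).comp (hk j)
      push_cast at this
      exact this
    have halC : Tendsto (fun t => (al j t : ℂ)) atTop (𝓝 (1 : ℂ)) := by
      have := (continuous_ofReal.tendsto 1).comp (hal j)
      push_cast at this
      exact this
    have hbeC : Tendsto (fun t => (be j t : ℂ)) atTop (𝓝 (2 * ξ / (1 - ξ) : ℂ)) := by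
      have := (continuous_ofReal.tendsto (2 * ξ / (1 - ξ))).comp (hbe j)
      push_cast at this
      exact this
    have hδ1 : Tendsto δ1 atTop (𝓝 0) := by
      have h2 := ((hbeC.mul_const (ξ + I * s : ℂ)).const_sub (1 + ξ : ℂ)).sub_const
        (lam ξ s * (1 + ξ))
      have e : (1 + ξ : ℂ) - 2 * ξ / (1 - ξ) * (ξ + I * s) - lam ξ s * (1 + ξ) = 0 := by
        unfold lam
        have : (1 - (ξ : ℂ) ^ 2) = (1 - ξ) * (1 + ξ) := by ring
        rw [this]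
        field_simp
        ring
      rw [e] at h2
      exact h2
    have hδ2 : Tendsto δ2 atTop (𝓝 0) := by
      have h2 := ((hkC.const_mul (1 + ξ : ℂ)).add
        ((halC.sub (hbeC.mul hkC)).const_mul (ξ + I * s : ℂ))).sub_const (lam ξ s * (ξ + I * s))
      have e : (1 + ξ : ℂ) * (2 * ξ / (1 + ξ)) + (ξ + I * s) *
          (1 - 2 * ξ / (1 - ξ) * (2 * ξ / (1 + ξ))) - lam ξ s * (ξ + I * s) = 0 := by
        unfold lam
        have : (1 - (ξ : ℂ) ^ 2) = (1 - ξ) * (1 + ξ) := by ring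
        rw [this]
        field_simp
        ring_nf
        rw [I_sq, hsC]
        ring
      rw [e] at h2
      exact h2
    have hbd : ∀ᶠ t in atTop, ‖Lam ξ s (u j t) (w j t)‖ / N t ≤ 2 := by
      filter_upwards [ih.norm.eventually (gt_mem_nhds (by simp : ‖(0 : ℂ)‖ < 1))] with t ht
      have h2 : ‖Lam ξ s (u j t) (w j t) / (N t : ℂ)‖ ≤
          ‖Lam ξ s (u j t) (w j t) / (N t : ℂ) -
            lam ξ s ^ j * (Lam ξ s (u 0 t) (w 0 t) / (N t : ℂ))‖ +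
          ‖lam ξ s ^ j * (Lam ξ s (u 0 t) (w 0 t) / (N t : ℂ))‖ := by
        have := norm_add_le (Lam ξ s (u j t) (w j t) / (N t : ℂ) -
            lam ξ s ^ j * (Lam ξ s (u 0 t) (w 0 t) / (N t : ℂ)))
            (lam ξ s ^ j * (Lam ξ s (u 0 t) (w 0 t) / (N t : ℂ)))
        rwa [sub_add_cancel] at this
      have h3 : ‖lam ξ s ^ j * (Lam ξ s (u 0 t) (w 0 t) / (N t : ℂ))‖ ≤ 1 := by
        rw [norm_mul, norm_pow, norm_lam hsq hs, one_pow, one_mul, norm_div, norm_real,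
          Real.norm_eq_abs, abs_of_nonneg (norm_nonneg _)]
        exact div_self_le_one _
      rw [norm_div, norm_real, Real.norm_eq_abs, abs_of_nonneg (norm_nonneg _)] at h2
      exact (h2.trans (add_le_add ht.le h3)).trans (by norm_num)
    have herr : Tendsto (fun t => (Lam ξ s (u (j + 1) t) (w (j + 1) t) -
        lam ξ s * Lam ξ s (u j t) (w j t)) / N t) atTop (𝓝 0) := by
      have hb : Tendsto (fun t => (‖δ1 t‖ + ‖δ2 t‖) * ((1 + 1 / s) * 2)) atTop (𝓝 0) := by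
        have := (hδ1.norm.add hδ2.norm).mul_const ((1 + 1 / s) * 2)
        simpa using this
      refine squeeze_zero_norm' ?_ hb
      filter_upwards [hbd, hstep j] with t ht hst
      have e : Lam ξ s (u (j + 1) t) (w (j + 1) t) - lam ξ s * Lam ξ s (u j t) (w j t) =
          δ1 t * u j t + δ2 t * w j t := by
        rw [hst.2, hst.1]
        simp only [Lam, δ1, δ2]
        push_cast
        ring
      rw [e, norm_div, norm_real, Real.norm_eq_abs, abs_of_nonneg (norm_nonneg _)]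
      have h2 : ‖δ1 t * (u j t : ℂ) + δ2 t * (w j t : ℂ)‖ ≤
          (‖δ1 t‖ + ‖δ2 t‖) * ((1 + 1 / s) * ‖Lam ξ s (u j t) (w j t)‖) := by
        refine (norm_add_le _ _).trans ?_
        rw [norm_mul, norm_mul, norm_real, norm_real, Real.norm_eq_abs, Real.norm_eq_abs, add_mul]
        exact add_le_add (mul_le_mul_of_nonneg_left (u_le h0 h1 hs0 _ _) (norm_nonneg _))
          (mul_le_mul_of_nonneg_left (w_le hs0 _ _) (norm_nonneg _))
      calc _ / N t ≤ (‖δ1 t‖ + ‖δ2 t‖) * ((1 + 1 / s) * ‖Lam ξ s (u j t) (w j t)‖) / N t :=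
            div_le_div_of_nonneg_right h2 (norm_nonneg _)
        _ = (‖δ1 t‖ + ‖δ2 t‖) * ((1 + 1 / s) * (‖Lam ξ s (u j t) (w j t)‖ / N t)) := by ring
        _ ≤ _ := by gcongr
    have h2 := herr.add (ih.const_mul (lam ξ s))
    rw [mul_zero, add_zero] at h2
    refine h2.congr fun t => ?_
    rw [pow_succ]
    ring

/-! ### The observable -/

/-- The auxiliary constants. -/
noncomputable def pp (ξ s : ℝ) : ℂ := 1 + ξ + s + ξ * I

@[inherit_doc pp]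
noncomputable def qq (ξ s : ℝ) : ℂ := s - 1 - ξ - ξ * I

theorem pp_re : (pp ξ s).re = 1 + ξ + s := by simp [pp]

theorem pp_im : (pp ξ s).im = ξ := by simp [pp]

theorem qq_re : (qq ξ s).re = s - 1 - ξ := by simp [qq]

theorem qq_im : (qq ξ s).im = -ξ := by simp [qq]

theorem pp_ne (h0 : 0 < ξ) : pp ξ s ≠ 0 := by
  intro h
  have := congrArg im h
  rw [pp_im, zero_im] at this
  linarith

theorem gam_lt (h0 : 0 < ξ) (hs0 : 0 < s) : ‖qq ξ s / pp ξ s‖ < 1 := by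
  have hp : 0 < ‖pp ξ s‖ := norm_pos_iff.2 (pp_ne h0)
  rw [norm_div, div_lt_one hp]
  have h2 : ‖qq ξ s‖ ^ 2 < ‖pp ξ s‖ ^ 2 := by
    rw [← normSq_eq_norm_sq, ← normSq_eq_norm_sq, normSq_apply, normSq_apply, pp_re, pp_im, qq_re,
      qq_im]
    nlinarith
  exact lt_of_pow_lt_pow_left₀ 2 hp.le h2

theorem obs_eq (h0 : 0 < ξ) (hs0 : 0 < s) {u w : ℝ} (huw : ¬ (u = 0 ∧ w = 0)) :
    w ^ 2 / (u ^ 2 + w ^ 2) =
      ((1 + ξ) / pp ξ s * Psi (qq ξ s / pp ξ s)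
        (conj (Lam ξ s u w) / Lam ξ s u w)).re := by
  have hp := pp_ne (s := s) h0
  have hL : Lam ξ s u w ≠ 0 := by
    intro h
    have h1 := congrArg im h
    have h2 := congrArg re h
    rw [Lam_im, zero_im] at h1
    rw [Lam_re, zero_re] at h2
    have hw : w = 0 := (mul_eq_zero.1 h1).resolve_left hs0.ne'
    rw [hw, mul_zero, add_zero] at h2
    exact huw ⟨(mul_eq_zero.1 h2).resolve_left (by linarith), hw⟩
  have hpos : 0 < u ^ 2 + w ^ 2 := by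
    rcases not_and_or.1 huw with h | h <;> positivity
  have hz : (u : ℂ) + I * w ≠ 0 := by
    intro h
    have h1 := congrArg re h
    have h2 := congrArg im h
    simp at h1 h2
    exact huw ⟨h1, h2⟩
  have hconj : conj (Lam ξ s u w) = (1 + ξ) * u + (ξ - I * s) * w := by
    unfold Lam
    simp only [map_add, map_mul, conj_ofReal, conj_I, map_one]
    ring
  have key : pp ξ s * Lam ξ s u w + qq ξ s * conj (Lam ξ s u w) =
      2 * s * (1 + ξ) * (u + I * w) := by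
    rw [hconj]
    unfold pp qq Lam
    ring_nf
    rw [I_sq]
    ring
  have hs' : (s : ℂ) ≠ 0 := by exact_mod_cast hs0.ne'
  have hξ' : (1 + ξ : ℂ) ≠ 0 := by
    have : (1 + ξ : ℝ) ≠ 0 := by linarith
    exact_mod_cast this
  have hden : pp ξ s * Lam ξ s u w + qq ξ s * conj (Lam ξ s u w) ≠ 0 := by
    rw [key]
    exact mul_ne_zero (mul_ne_zero (mul_ne_zero two_ne_zero hs') hξ') hz
  have e1 : (1 + ξ) / pp ξ s * Psi (qq ξ s / pp ξ s) (conj (Lam ξ s u w) / Lam ξ s u w) =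
      (1 + ξ) * (Lam ξ s u w - conj (Lam ξ s u w)) /
        (pp ξ s * Lam ξ s u w + qq ξ s * conj (Lam ξ s u w)) := by
    have h3 : 1 + qq ξ s / pp ξ s * (conj (Lam ξ s u w) / Lam ξ s u w) =
        (pp ξ s * Lam ξ s u w + qq ξ s * conj (Lam ξ s u w)) / (pp ξ s * Lam ξ s u w) := by
      rw [eq_div_iff (mul_ne_zero hp hL)]
      field_simp
    unfold Psi
    rw [h3, div_div_eq_mul_div, div_mul_div_comm, one_sub_div hL]
    rw [div_eq_div_iff (mul_ne_zero hp hden) hden]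
    field_simp
  have e2 : (1 + ξ) * (Lam ξ s u w - conj (Lam ξ s u w)) /
        (pp ξ s * Lam ξ s u w + qq ξ s * conj (Lam ξ s u w)) = I * w / (u + I * w) := by
    rw [key, hconj]
    rw [div_eq_div_iff (mul_ne_zero (mul_ne_zero (mul_ne_zero two_ne_zero hs') hξ') hz) hz]
    unfold Lam
    ring
  rw [e1, e2]
  have e3 : I * (w : ℂ) / (u + I * w) = ((w ^ 2 / (u ^ 2 + w ^ 2) : ℝ) : ℂ) +
      ((u * w / (u ^ 2 + w ^ 2) : ℝ) : ℂ) * I := by
    have h4 : ((u : ℂ) ^ 2 + (w : ℂ) ^ 2) ≠ 0 := by exact_mod_cast hpos.ne'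
    push_cast
    rw [div_eq_iff hz]
    field_simp
    ring_nf
    rw [I_sq]
    ring
  rw [e3, add_re, ofReal_re, re_ofReal_mul, I_re, mul_zero, add_zero]

end Abs

end Pool.Agent.R266.FC
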