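import Mathlib
import Pool.Agent.R266.FC.Ell

set_option autoImplicit false

/-!
# The elliptic region: local averages
-/

namespace Pool.Agent.R266.FC

open Finset Filter Topology Complex ComplexConjugate

theorem norm_conj_div {a : ℂ} (ha : a ≠ 0) : ‖conj a / a‖ = 1 := by
  rw [norm_div, norm_conj, div_self (norm_ne_zero_iff.2 ha)]

theorem ratio_lip {a b : ℂ} (hb : ‖b‖ = 1) (hab : ‖a - b‖ ≤ 1 / 2) :
    ‖conj a / a - conj b / b‖ ≤ 4 * ‖a - b‖ := by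
  have hb0 : b ≠ 0 := by
    rw [← norm_pos_iff, hb]; exact one_pos
  have ha : 1 / 2 ≤ ‖a‖ := by
    have h1 := norm_sub_norm_le b a
    rw [norm_sub_rev, hb] at h1
    linarith
  have ha0 : a ≠ 0 := by
    rw [← norm_pos_iff]; linarith
  have e : conj a / a - conj b / b = ((conj a - conj b) * b - conj b * (a - b)) / (a * b) := by
    rw [div_sub_div _ _ ha0 hb0]
    congr 1
    ring
  rw [e, norm_div, norm_mul a b, hb, mul_one]
  have h2 : ‖(conj a - conj b) * b - conj b * (a - b)‖ ≤ 2 * ‖a - b‖ := by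
    refine (norm_sub_le _ _).trans ?_
    rw [norm_mul, norm_mul, hb, norm_conj, hb, ← map_sub, norm_conj]
    linarith
  rw [div_le_iff₀ (by linarith)]
  nlinarith [norm_nonneg (a - b)]

theorem nonvan {ξ : ℝ} (h0 : 0 < ξ) (h1 : ξ < 1) (j : ℕ) :
    ∀ᶠ t : ℕ in atTop, ¬ ((P (t - 1)).1 (xt t ξ - 2 * (j : ℤ)) = 0 ∧
      (P (t - 1)).2 (xt t ξ - 2 * (j : ℤ)) = 0) := by
  filter_upwards [sites h0 h1 j 2] with t ht
  obtain ⟨a1, a2, a3⟩ := ht
  have b1 : 2 < xt t ξ - 2 * (j : ℤ) := by exact_mod_cast a1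
  have b2 : xt t ξ - 2 * (j : ℤ) + 2 < t := by exact_mod_cast a2
  have b3 : (xt t ξ - 2 * (j : ℤ)) % 2 = (t : ℤ) % 2 := by
    unfold xt; omega
  set y := xt t ξ - 2 * (j : ℤ) with hy
  obtain ⟨k, hk⟩ : ∃ k : ℕ, y = (((t - 1 : ℕ) : ℤ)) + 1 - 2 * k :=
    ⟨(((t : ℤ) - y) / 2).toNat, by omega⟩
  rw [hk]
  exact ne_zero (t - 1) k (by omega)

theorem ell_point {ξ s : ℝ} (h0 : 0 < ξ) (h1 : ξ < 1) (hs0 : 0 < s) (hs : s ^ 2 = 1 - 2 * ξ ^ 2)
    (hroot : ∀ k : ℕ, 0 < k → lam ξ s ^ k ≠ 1) {ε : ℝ} (hε : 0 < ε) :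
    ∀ᶠ L : ℕ in atTop, ∀ᶠ t : ℕ in atTop,
      |1 / (L : ℝ) * ∑ j ∈ range L, F t (xt t ξ - 2 * j) - (1 + ξ + s) / (2 * (1 + s))| ≤ ε := by
  have hsq : ξ ^ 2 < 1 := by nlinarith
  set lm := lam ξ s with hlm
  have hlm1 : ‖lm‖ = 1 := norm_lam hsq hs
  have hlm0 : lm ≠ 0 := by rw [← norm_pos_iff, hlm1]; exact one_pos
  set K : ℂ := (1 + ξ) / pp ξ s with hK
  set γ : ℂ := qq ξ s / pp ξ s with hγ
  have hγ1 : ‖γ‖ < 1 := gam_lt h0 hs0
  have hKre : K.re = (1 + ξ + s) / (2 * (1 + s)) := by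
    have h2 : K = ((((1 + ξ) * (1 + ξ + s)) / ((1 + ξ + s) ^ 2 + ξ ^ 2) : ℝ) : ℂ) +
        ((-(((1 + ξ) * ξ) / ((1 + ξ + s) ^ 2 + ξ ^ 2)) : ℝ) : ℂ) * I := by
      have h3 : (((1 + ξ + s) ^ 2 + ξ ^ 2 : ℝ) : ℂ) ≠ 0 := by
        have : (0 : ℝ) < (1 + ξ + s) ^ 2 + ξ ^ 2 := by positivity
        exact_mod_cast this.ne'
      rw [hK, div_eq_iff (pp_ne h0)]
      unfold pp
      push_cast at h3 ⊢
      field_simp
      ring_nf
      rw [I_sq]
      ring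
    rw [h2, add_re, ofReal_re, re_ofReal_mul, I_re, mul_zero, add_zero]
    rw [div_eq_div_iff (by positivity) (by positivity)]
    linear_combination (-(1 + ξ + s)) * hs
  set μ : ℂ := conj lm / lm with hμ
  have hμ1 : ‖μ‖ = 1 := norm_conj_div hlm0
  have hμroot : ∀ k : ℕ, 0 < k → μ ^ k ≠ 1 := by
    intro k hk h
    have h2 : conj lm * lm = 1 := by
      rw [mul_comm, mul_conj, normSq_eq_norm_sq, hlm1]; norm_num
    have h3 : μ * (lm * lm) = 1 := by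
      have h5 : conj lm / lm * (lm * lm) = conj lm * lm := by field_simp
      rw [hμ, h5, h2]
    apply hroot (2 * k) (by omega)
    have h4 := congrArg (fun z => z ^ k) h3
    simp only [mul_pow, one_pow, h, one_mul] at h4
    rw [two_mul, pow_add]
    exact h4
  let u : ℕ → ℕ → ℝ := fun j t => (P (t - 1)).1 (xt t ξ - 2 * (j : ℤ))
  let w : ℕ → ℕ → ℝ := fun j t => (P (t - 1)).2 (xt t ξ - 2 * (j : ℤ))
  have hstep : ∀ j, ∀ᶠ t in atTop, u (j + 1) t =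
      u j t + (fun (j t : ℕ) => kap t (xt t ξ - 2 * (j : ℤ))) j t * w j t ∧
      w (j + 1) t = (fun (j t : ℕ) => alp t (xt t ξ - 2 * (j : ℤ))) j t * w j t -
        (fun (j t : ℕ) => bet t (xt t ξ - 2 * (j : ℤ))) j t * u (j + 1) t := by
    intro j
    filter_upwards [sites h0 h1 j 2] with t ht
    obtain ⟨a1, a2, a3⟩ := ht
    have h2 := step a3 (xt t ξ - 2 * (j : ℤ)) (by
      have : (0 : ℝ) ≤ t := Nat.cast_nonneg t
      intro h; linarith) (by intro h; linarith)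
    have e : xt t ξ - 2 * ((j + 1 : ℕ) : ℤ) = xt t ξ - 2 * (j : ℤ) - 2 := by push_cast; ring
    simp only [u, w, e]
    exact h2
  have hlimD := ell_abs h0 h1 hs0 hs hstep (fun j => kap_tend h0 j) (fun j => alp_tend h1 j)
    fun j => bet_tend h1 j
  set Λ : ℕ → ℕ → ℂ := fun j t => Lam ξ s (u j t) (w j t) with hΛ
  have hLne : ∀ {a b : ℝ}, ¬ (a = 0 ∧ b = 0) → Lam ξ s a b ≠ 0 := by
    intro a b hab h
    have h2 := congrArg im h
    have h3 := congrArg re h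
    rw [Lam_im, zero_im] at h2
    rw [Lam_re, zero_re] at h3
    have hw : b = 0 := (mul_eq_zero.1 h2).resolve_left hs0.ne'
    rw [hw, mul_zero, add_zero] at h3
    exact hab ⟨(mul_eq_zero.1 h3).resolve_left (by linarith), hw⟩
  let c0 : ℕ → ℂ := fun t => conj (Λ 0 t) / Λ 0 t
  have hc0 : ∀ᶠ t in atTop, ‖c0 t‖ = 1 := by
    filter_upwards [nonvan h0 h1 0] with t ht
    exact norm_conj_div (hLne ht)
  -- one term
  have hterm : ∀ j : ℕ, Tendsto (fun t : ℕ => F t (xt t ξ - 2 * (j : ℤ)) -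
      (K * Psi γ (μ ^ j * c0 t)).re) atTop (𝓝 0) := by
    intro j
    have hD := hlimD j
    have hb : Tendsto (fun t => ‖K‖ * (‖1 + γ‖ / (1 - ‖γ‖) ^ 2 * (4 * ‖Λ j t / ‖Λ 0 t‖ -
      lm ^ j * (Λ 0 t / ‖Λ 0 t‖)‖))) atTop (𝓝 0) := by
      have := (((hD.norm.const_mul 4).const_mul (‖1 + γ‖ / (1 - ‖γ‖) ^ 2)).const_mul ‖K‖)
      simpa using this
    refine squeeze_zero_norm' ?_ hb
    filter_upwards [nonvan h0 h1 0, nonvan h0 h1 j,
      hD.norm.eventually (ge_mem_nhds (by simp : ‖(0 : ℂ)‖ < 1 / 2))] with t t0 tj td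
    have hΛ0 : Λ 0 t ≠ 0 := hLne t0
    have hΛj : Λ j t ≠ 0 := hLne tj
    have hN : ((‖Λ 0 t‖ : ℝ) : ℂ) ≠ 0 := by exact_mod_cast norm_ne_zero_iff.2 hΛ0
    set a : ℂ := Λ j t / ‖Λ 0 t‖ with ha
    set b : ℂ := lm ^ j * (Λ 0 t / ‖Λ 0 t‖) with hb'
    have hb1 : ‖b‖ = 1 := by
      rw [hb', norm_mul, norm_pow, hlm1, one_pow, one_mul, norm_div, norm_real, norm_norm,
        div_self (norm_ne_zero_iff.2 hΛ0)]
    have hca : conj (Λ j t) / Λ j t = conj a / a := by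
      rw [ha, map_div₀, conj_ofReal, div_div_div_cancel_right₀ hN]
    have hcb : μ ^ j * c0 t = conj b / b := by
      rw [hb', map_mul, map_div₀, conj_ofReal, map_pow, mul_div_mul_comm,
        div_div_div_cancel_right₀ hN, hμ, div_pow]
    have hF : F t (xt t ξ - 2 * (j : ℤ)) = (K * Psi γ (conj a / a)).re := by
      rw [← hca]
      exact obs_eq h0 hs0 tj
    have ha1 : ‖conj a / a‖ = 1 := by rw [← hca]; exact norm_conj_div hΛj
    have hb2 : ‖conj b / b‖ = 1 := norm_conj_div (by rw [← norm_pos_iff, hb1]; exact one_pos)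
    rw [hF, hcb, ← sub_re, ← mul_sub]
    refine (abs_re_le_norm _).trans ?_
    rw [norm_mul]
    refine mul_le_mul_of_nonneg_left ?_ (norm_nonneg _)
    refine (Psi_lip hγ1 ha1 hb2).trans ?_
    exact mul_le_mul_of_nonneg_left (ratio_lip hb1 td) (by positivity)
  -- averages
  have hK0 : 0 < ‖K‖ + 1 := by positivity
  filter_upwards [equi hμ1 hμroot hγ1 (by positivity : 0 < ε / (2 * (‖K‖ + 1))),
    eventually_gt_atTop 0] with L hL hL0
  have hL' : (0 : ℝ) < L := by exact_mod_cast hL0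
  have hsum : Tendsto (fun t : ℕ => 1 / (L : ℝ) * ∑ j ∈ range L, (F t (xt t ξ - 2 * (j : ℤ)) -
      (K * Psi γ (μ ^ j * c0 t)).re)) atTop (𝓝 0) := by
    have := (tendsto_finsetSum (range L) fun j _ => hterm j).const_mul (1 / (L : ℝ))
    simpa using this
  filter_upwards [hsum.abs.eventually (ge_mem_nhds (by simp; linarith : |(0 : ℝ)| < ε / 2)), hc0]
    with t ht hct
  have h2 := hL (c0 t) hct
  have h3 : |1 / (L : ℝ) * ∑ j ∈ range L, (K * Psi γ (μ ^ j * c0 t)).re - K.re| ≤ ε / 2 := by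
    have e : 1 / (L : ℝ) * ∑ j ∈ range L, (K * Psi γ (μ ^ j * c0 t)).re - K.re =
        (K * (1 / (L : ℂ) * ∑ j ∈ range L, Psi γ (μ ^ j * c0 t) - 1)).re := by
      have e2 : K * (1 / (L : ℂ) * ∑ j ∈ range L, Psi γ (μ ^ j * c0 t) - 1) =
          ((1 / (L : ℝ) : ℝ) : ℂ) * ∑ j ∈ range L, K * Psi γ (μ ^ j * c0 t) - K := by
        rw [← mul_sum]
        push_cast
        ring
      rw [e2, sub_re, re_ofReal_mul, re_sum]
    rw [e]
    refine (abs_re_le_norm _).trans ?_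
    rw [norm_mul]
    calc ‖K‖ * _ ≤ (‖K‖ + 1) * (ε / (2 * (‖K‖ + 1))) := by gcongr; linarith
      _ = ε / 2 := by field_simp
  rw [← hKre]
  have h4 : 1 / (L : ℝ) * ∑ j ∈ range L, F t (xt t ξ - 2 * j) - K.re =
      1 / (L : ℝ) * ∑ j ∈ range L, (F t (xt t ξ - 2 * (j : ℤ)) -
        (K * Psi γ (μ ^ j * c0 t)).re) +
      (1 / (L : ℝ) * ∑ j ∈ range L, (K * Psi γ (μ ^ j * c0 t)).re - K.re) := by
    rw [sum_sub_distrib]
    ring
  rw [h4]
  refine (abs_add_le _ _).trans ?_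
  linarith

end Pool.Agent.R266.FC
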