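import Mathlib
import Pool.Agent.R266.FC.Ell2

set_option autoImplicit false

/-!
# The hyperbolic region
-/

namespace Pool.Agent.R266.FC

open Finset Filter Topology

/-- The trapping region for the direction. -/
def Trap (t : ℕ) (x : ℤ) : Prop :=
  (P (t - 1)).2 x ≠ 0 ∧ 0 ≤ -((P (t - 1)).1 x / (P (t - 1)).2 x) ∧
    -((P (t - 1)).1 x / (P (t - 1)).2 x) ≤ ((x : ℝ) - 1) / (t + x - 2)

/-- One step for the direction. -/
theorem dir_step {t : ℕ} (ht : 0 < t) {x : ℤ} (h1 : (t : ℝ) + x - 2 ≠ 0)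
    (h2 : (t : ℝ) - x + 2 ≠ 0) (hw : (P (t - 1)).2 x ≠ 0)
    (hd : bet t x * (kap t x + (P (t - 1)).1 x / (P (t - 1)).2 x) - alp t x ≠ 0) :
    (P (t - 1)).2 (x - 2) ≠ 0 ∧ -((P (t - 1)).1 (x - 2) / (P (t - 1)).2 (x - 2)) =
      (kap t x + (P (t - 1)).1 x / (P (t - 1)).2 x) /
        (bet t x * (kap t x + (P (t - 1)).1 x / (P (t - 1)).2 x) - alp t x) := by
  obtain ⟨e1, e2⟩ := step ht x h1 h2
  set u := (P (t - 1)).1 x with hu
  set w := (P (t - 1)).2 x with hw'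
  set y := kap t x + u / w with hy
  have e3 : (P (t - 1)).1 (x - 2) = w * y := by
    rw [e1, hy]
    field_simp
    ring
  have e4 : (P (t - 1)).2 (x - 2) = -(w * (bet t x * y - alp t x)) := by
    rw [e2, e3]; ring
  rw [e3, e4]
  refine ⟨neg_ne_zero.2 (mul_ne_zero hw hd), ?_⟩
  rw [div_neg, neg_neg, mul_div_mul_left _ _ hw]

theorem trap (t : ℕ) (ht : 0 < t) (k : ℕ) (h0 : (0 : ℝ) < (t : ℝ) - 2 * k)
    (h : 12 * (t : ℝ) ≤ 2 * ((t : ℝ) - 2 * k) ^ 2 - (t : ℝ) ^ 2) :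
    Trap t ((t : ℤ) - 2 * k) := by
  induction k with
  | zero =>
    have e : ((t : ℤ) - 2 * ((0 : ℕ) : ℤ)) = (((t - 1 : ℕ) : ℤ)) + 1 := by omega
    obtain ⟨a1, a2⟩ := far (t - 1) ((((t - 1 : ℕ) : ℤ)) + 1) le_rfl
    rw [if_pos rfl] at a2
    unfold Trap
    rw [e, a1, a2]
    refine ⟨one_ne_zero, by simp, ?_⟩
    have ht1 : (1 : ℝ) ≤ t := by exact_mod_cast ht
    have e5 : (((((t - 1 : ℕ) : ℤ)) + 1 : ℤ) : ℝ) = t := by
      have : ((((t - 1 : ℕ) : ℤ)) + 1 : ℤ) = t := by omega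
      rw [this]; simp
    rw [e5, zero_div, neg_zero]
    exact div_nonneg (by linarith) (by linarith)
  | succ k ih =>
    set x : ℝ := (t : ℝ) - 2 * k with hx
    have hx2 : (t : ℝ) - 2 * ((k + 1 : ℕ) : ℝ) = x - 2 := by rw [hx]; push_cast; ring
    rw [hx2] at h0 h
    have hk0 : (0 : ℝ) ≤ k := Nat.cast_nonneg k
    have hxt : x ≤ t := by rw [hx]; linarith
    have ht1 : (1 : ℝ) ≤ t := by exact_mod_cast ht
    have hcond : 12 * (t : ℝ) ≤ 2 * x ^ 2 - (t : ℝ) ^ 2 := by nlinarith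
    have ht12 : (12 : ℝ) ≤ t := by nlinarith
    have hx12 : (12 : ℝ) ≤ x := by nlinarith
    obtain ⟨hw, hr0, hrc⟩ := ih (by linarith) hcond
    have hcast : (((t : ℤ) - 2 * (k : ℤ) : ℤ) : ℝ) = x := by rw [hx]; push_cast; ring
    rw [hcast] at hrc
    set z := (P (t - 1)).1 ((t : ℤ) - 2 * (k : ℤ)) / (P (t - 1)).2 ((t : ℤ) - 2 * (k : ℤ)) with hz
    have hB : 0 < (t : ℝ) + x - 2 := by linarith
    have hB' : 0 < (t : ℝ) + x - 4 := by linarith
    have hC : 0 < (t : ℝ) - x + 2 := by linarith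
    have hkap : kap t ((t : ℤ) - 2 * (k : ℤ)) = 2 * ((x - 1) / (t + x - 2)) := by
      unfold kap; rw [hcast]; ring
    have halp : alp t ((t : ℤ) - 2 * (k : ℤ)) = (t - x) / (t - x + 2) := by
      unfold alp; rw [hcast]
    have hbet : bet t ((t : ℤ) - 2 * (k : ℤ)) = 2 * (x - 2) / (t - x + 2) := by
      unfold bet; rw [hcast]
    set c := (x - 1) / ((t : ℝ) + x - 2) with hc
    set y := kap t ((t : ℤ) - 2 * (k : ℤ)) + z with hy
    have hyc : c ≤ y := by rw [hy, hkap]; linarith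
    have hc0 : 0 < c := div_pos (by linarith) hB
    have hD1 : 0 < 2 * (x - 2) * c - (t - x) := by
      rw [hc, ← mul_div_assoc, sub_pos, lt_div_iff₀ hB]
      nlinarith
    have hD2 : 0 < 2 * (x - 2) * y - (t - x) := by nlinarith
    have hden : bet t ((t : ℤ) - 2 * (k : ℤ)) * y - alp t ((t : ℤ) - 2 * (k : ℤ)) =
        (2 * (x - 2) * y - (t - x)) / (t - x + 2) := by
      rw [hbet, halp]; field_simp
    have hdpos : 0 < bet t ((t : ℤ) - 2 * (k : ℤ)) * y - alp t ((t : ℤ) - 2 * (k : ℤ)) := by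
      rw [hden]; exact div_pos hD2 hC
    obtain ⟨f1, f2⟩ := dir_step ht (x := (t : ℤ) - 2 * (k : ℤ)) (by rw [hcast]; exact hB.ne')
      (by rw [hcast]; exact hC.ne') hw hdpos.ne'
    have e6 : (t : ℤ) - 2 * ((k + 1 : ℕ) : ℤ) = (t : ℤ) - 2 * (k : ℤ) - 2 := by push_cast; ring
    unfold Trap
    rw [e6, f2]
    refine ⟨f1, div_nonneg (hc0.le.trans hyc) hdpos.le, ?_⟩
    have hcast2 : (((t : ℤ) - 2 * (k : ℤ) - 2 : ℤ) : ℝ) = x - 2 := by
      rw [hx]; push_cast; ring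
    rw [hcast2]
    change y / (bet t ((t : ℤ) - 2 * (k : ℤ)) * y - alp t ((t : ℤ) - 2 * (k : ℤ))) ≤ _
    rw [hden, div_div_eq_mul_div, div_le_div_iff₀ hD2 (by linarith)]
    -- y (t - x + 2) (t + x - 4) ≤ (x - 3) (2 (x - 2) y - (t - x))
    have hpoly : (x - 3) * (t - x) * (t + x - 2) ≤
        (x - 1) * (2 * (x - 2) * (x - 3) - (t - x + 2) * (t + x - 4)) := by
      have hxx : 12 * (t : ℝ) * x ≤ (2 * x ^ 2 - (t : ℝ) ^ 2) * x :=
        mul_le_mul_of_nonneg_right hcond (by linarith)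
      nlinarith
    have hfac : 0 ≤ 2 * (x - 2) * (x - 3) - (t - x + 2) * (t + x - 4) := by nlinarith
    have h7 : (x - 3) * (t - x) ≤
        c * (2 * (x - 2) * (x - 3) - (t - x + 2) * (t + x - 4)) := by
      rw [hc, div_mul_eq_mul_div, le_div_iff₀ hB]
      exact hpoly
    have h8 := h7.trans (mul_le_mul_of_nonneg_right hyc hfac)
    have e7 : x - 2 - 1 = x - 3 := by ring
    have e8 : (t : ℝ) + (x - 2) - 2 = t + x - 4 := by ring
    rw [e7, e8]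
    linarith

end Pool.Agent.R266.FC
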