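import Mathlib
import Pool.Agent.R266.FC.Hyp

set_option autoImplicit false

/-!
# The hyperbolic region: limits
-/

namespace Pool.Agent.R266.FC

open Finset Filter Topology

theorem trap_ev {ξ : ℝ} (h0 : 0 < ξ) (h1 : ξ < 1) (h2 : 1 < 2 * ξ ^ 2) (j : ℤ) :
    ∀ᶠ t : ℕ in atTop, Trap t (xt t ξ - 2 * j) := by
  have hy := y_div ξ j
  have hsq := ((hy.pow 2).const_mul 2).sub_const 1
  have e1 : ∀ᶠ t : ℕ in atTop, (2 * ξ ^ 2 - 1) / 2 <
      2 * (((xt t ξ - 2 * j : ℤ) : ℝ) / t) ^ 2 - 1 :=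
    hsq.eventually (lt_mem_nhds (by linarith))
  have e2 : ∀ᶠ t : ℕ in atTop, (12 : ℝ) / t < (2 * ξ ^ 2 - 1) / 2 :=
    (inv_tend 12).eventually (gt_mem_nhds (by linarith))
  filter_upwards [sites h0 h1 j 0, e1, e2] with t a1 a2 a3
  obtain ⟨b1, b2, b3⟩ := a1
  have ht' : (0 : ℝ) < t := by exact_mod_cast b3
  have c2 : xt t ξ - 2 * j < t := by
    have : ((xt t ξ - 2 * j : ℤ) : ℝ) < t := by linarith
    exact_mod_cast this
  have c3 : (xt t ξ - 2 * j) % 2 = (t : ℤ) % 2 := by unfold xt; omega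
  obtain ⟨k, hk⟩ : ∃ k : ℕ, xt t ξ - 2 * j = (t : ℤ) - 2 * k :=
    ⟨(((t : ℤ) - (xt t ξ - 2 * j)) / 2).toNat, by omega⟩
  rw [hk] at b1 a2 ⊢
  have hc : (((t : ℤ) - 2 * (k : ℤ) : ℤ) : ℝ) = (t : ℝ) - 2 * k := by push_cast; ring
  rw [hc] at b1 a2
  refine trap t b3 k b1 ?_
  have a4 := a3.trans a2
  rw [div_pow, ← mul_div_assoc, div_sub_one (by positivity), div_lt_div_iff₀ ht' (by positivity)]
    at a4
  have a5 : (12 * (t : ℝ)) * t < (2 * ((t : ℝ) - 2 * k) ^ 2 - (t : ℝ) ^ 2) * t := by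
    calc (12 * (t : ℝ)) * t = 12 * (t : ℝ) ^ 2 := by ring
      _ < _ := a4
  exact (lt_of_mul_lt_mul_right a5 ht'.le).le

theorem frac_id {b al Y y r : ℝ} (h1 : b * Y - al ≠ 0) (h2 : b * y - al ≠ 0) :
    Y / (b * Y - al) - r = -(al / ((b * Y - al) * (b * y - al)) * (Y - y)) +
      (y / (b * y - al) - r) := by
  have h3 : Y / (b * Y - al) - y / (b * y - al) =
      -(al * (Y - y)) / ((b * Y - al) * (b * y - al)) := by
    rw [div_sub_div _ _ h1 h2]
    congr 1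
    ring
  rw [div_mul_eq_mul_div, ← neg_div]
  linarith

theorem hyp_rec {ξ s : ℝ} (h0 : 0 < ξ) (h1 : ξ < 1) (hs0 : 0 < s) (hs : s ^ 2 = 2 * ξ ^ 2 - 1)
    (j : ℤ) {ε : ℝ} (hε : 0 < ε) :
    ∀ᶠ t : ℕ in atTop,
      |-((P (t - 1)).1 (xt t ξ - 2 * (j + 1)) / (P (t - 1)).2 (xt t ξ - 2 * (j + 1))) -
          (ξ - s) / (1 + ξ)| ≤
        (1 - ξ ^ 2) / (3 * ξ ^ 2 - 1) *
          |-((P (t - 1)).1 (xt t ξ - 2 * j) / (P (t - 1)).2 (xt t ξ - 2 * j)) -
            (ξ - s) / (1 + ξ)| + ε := by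
  have h2 : 1 < 2 * ξ ^ 2 := by nlinarith
  have hk1 := kap_tend h0 j
  have ha1 := alp_tend h1 j
  have hb1 := bet_tend h1 j
  set k : ℝ := 2 * ξ / (1 + ξ) with hk
  set m : ℝ := 2 * ξ / (1 - ξ) with hm
  set ys : ℝ := (ξ + s) / (1 + ξ) with hys
  set rs : ℝ := (ξ - s) / (1 + ξ) with hrs
  set θ : ℝ := (1 - ξ ^ 2) / (3 * ξ ^ 2 - 1) with hθ
  have hp1 : 0 < 1 - ξ := by linarith
  have hp2 : 0 < 1 + ξ := by linarith
  have hp3 : 0 < 3 * ξ ^ 2 - 1 := by linarith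
  have hp4 : 0 < 1 - ξ ^ 2 := by nlinarith
  have hq2 : m * ys - 1 = (ξ + s) ^ 2 / (1 - ξ ^ 2) := by
    have : (1 - ξ ^ 2) = (1 - ξ) * (1 + ξ) := by ring
    rw [hm, hys, this, div_mul_div_comm, div_sub_one (by positivity)]
    congr 1
    linear_combination (-1 : ℝ) * hs
  have hq2' : 1 < m * ys - 1 := by
    rw [hq2, lt_div_iff₀ hp4]
    nlinarith [mul_pos h0 hs0]
  have hq1 : m * (k / 2) - 1 = (3 * ξ ^ 2 - 1) / (1 - ξ ^ 2) := by
    have : (1 - ξ ^ 2) = (1 - ξ) * (1 + ξ) := by ring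
    rw [hm, hk, this]
    field_simp
    ring
  have hq1' : 1 < m * (k / 2) - 1 := by
    rw [hq1, lt_div_iff₀ hp4]
    linarith
  have hfix : ys / (m * ys - 1) = rs := by
    rw [hq2, hys, hrs, div_div_eq_mul_div, div_mul_eq_mul_div, div_div,
      div_eq_div_iff (by positivity) (by positivity)]
    linear_combination ((1 + ξ) * (ξ + s)) * hs
  have hysrs : ys = k - rs := by
    rw [hys, hk, hrs]; field_simp; ring
  -- limits
  have l1 : Tendsto (fun t : ℕ => alp t (xt t ξ - 2 * j) /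
      ((bet t (xt t ξ - 2 * j) * (kap t (xt t ξ - 2 * j) / 2) - alp t (xt t ξ - 2 * j)) *
        (bet t (xt t ξ - 2 * j) * ys - alp t (xt t ξ - 2 * j)))) atTop
      (𝓝 (1 / ((m * (k / 2) - 1) * (m * ys - 1)))) :=
    ha1.div (((hb1.mul (hk1.div_const 2)).sub ha1).mul ((hb1.mul_const ys).sub ha1))
      (mul_pos (by linarith) (by linarith)).ne'
  have l1' : 1 / ((m * (k / 2) - 1) * (m * ys - 1)) < θ := by
    have e : θ = 1 / (m * (k / 2) - 1) := by rw [hq1, hθ, one_div_div]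
    rw [e]
    refine one_div_lt_one_div_of_lt (by linarith) ?_
    nlinarith
  have l2 : Tendsto (fun t : ℕ => |kap t (xt t ξ - 2 * j) - k|) atTop (𝓝 0) := by
    have := (hk1.sub_const k).abs
    simpa using this
  have l3 : Tendsto (fun t : ℕ => |ys / (bet t (xt t ξ - 2 * j) * ys -
      alp t (xt t ξ - 2 * j)) - rs|) atTop (𝓝 0) := by
    have h3 := ((tendsto_const_nhds (x := ys)).div ((hb1.mul_const ys).sub ha1)
      (by linarith : m * ys - 1 ≠ 0)).sub_const rs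
    rw [hfix, sub_self] at h3
    simpa using h3.abs
  have l4 : Tendsto (fun t : ℕ => bet t (xt t ξ - 2 * j) * (kap t (xt t ξ - 2 * j) / 2) -
      alp t (xt t ξ - 2 * j)) atTop (𝓝 (m * (k / 2) - 1)) :=
    (hb1.mul (hk1.div_const 2)).sub ha1
  have l5 : Tendsto (fun t : ℕ => bet t (xt t ξ - 2 * j) * ys - alp t (xt t ξ - 2 * j)) atTop
      (𝓝 (m * ys - 1)) := (hb1.mul_const ys).sub ha1
  have hm0 : 0 < m := by rw [hm]; positivity
  filter_upwards [trap_ev h0 h1 h2 j, sites h0 h1 j 2, l1.eventually (gt_mem_nhds l1'),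
    l2.eventually (gt_mem_nhds (by linarith : 0 < ε / 2)),
    l3.eventually (gt_mem_nhds (by linarith : 0 < ε / 2)),
    l4.eventually (lt_mem_nhds (by linarith : 0 < m * (k / 2) - 1)),
    l5.eventually (lt_mem_nhds (by linarith : 0 < m * ys - 1)),
    ha1.eventually (lt_mem_nhds zero_lt_one), hb1.eventually (lt_mem_nhds hm0)]
    with t tr si a1 a2 a3 a4 a5 a6 a7
  obtain ⟨hw, hr0, hrc⟩ := tr
  obtain ⟨b1, b2, b3⟩ := si
  set x := xt t ξ - 2 * j with hx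
  set z := (P (t - 1)).1 x / (P (t - 1)).2 x with hz
  have hkx : ((x : ℝ) - 1) / (t + x - 2) = kap t x / 2 := by unfold kap; ring
  rw [hkx] at hrc
  have hy : kap t x / 2 ≤ kap t x + z := by linarith
  have hd : 0 < bet t x * (kap t x + z) - alp t x := by
    have := mul_le_mul_of_nonneg_left hy a7.le
    linarith
  have ht0 : (0 : ℝ) ≤ t := Nat.cast_nonneg t
  obtain ⟨-, f2⟩ := dir_step b3 (x := x) (by intro h; linarith) (by intro h; linarith) hw hd.ne'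
  have e1 : xt t ξ - 2 * (j + 1) = x - 2 := by rw [hx]; ring
  rw [e1, f2]
  change |(kap t x + z) / (bet t x * (kap t x + z) - alp t x) - rs| ≤ _
  rw [frac_id hd.ne' a5.ne']
  refine (abs_add_le _ _).trans ?_
  rw [abs_neg, abs_mul]
  have e3 : |(kap t x + z) - ys| ≤ |-z - rs| + |kap t x - k| := by
    have : (kap t x + z) - ys = -(-z - rs) + (kap t x - k) := by rw [hysrs]; ring
    rw [this]
    refine (abs_add_le _ _).trans ?_
    rw [abs_neg]
  have e4 : |alp t x / ((bet t x * (kap t x + z) - alp t x) * (bet t x * ys - alp t x))| ≤ θ := by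
    rw [abs_of_nonneg (div_nonneg a6.le (mul_pos hd a5).le)]
    refine le_trans ?_ a1.le
    refine div_le_div_of_nonneg_left a6.le (mul_pos a4 a5) ?_
    refine mul_le_mul_of_nonneg_right ?_ a5.le
    have := mul_le_mul_of_nonneg_left hy a7.le
    linarith
  have hθ0 : 0 ≤ θ := by rw [hθ]; positivity
  have hθ1 : θ ≤ 1 := by rw [hθ, div_le_one hp3]; linarith
  have e5 := mul_le_mul e4 e3 (abs_nonneg _) hθ0
  have e6 : θ * |kap t x - k| ≤ |kap t x - k| := by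
    have := abs_nonneg (kap t x - k)
    nlinarith
  rw [mul_add θ] at e5
  linarith only [e5, e6, a2, a3]

theorem hyp_lim {ξ s : ℝ} (h0 : 0 < ξ) (h1 : ξ < 1) (hs0 : 0 < s) (hs : s ^ 2 = 2 * ξ ^ 2 - 1)
    (j : ℤ) : Tendsto (fun t : ℕ =>
      -((P (t - 1)).1 (xt t ξ - 2 * j) / (P (t - 1)).2 (xt t ξ - 2 * j))) atTop
        (𝓝 ((ξ - s) / (1 + ξ))) := by
  have h2 : 1 < 2 * ξ ^ 2 := by nlinarith
  set θ : ℝ := (1 - ξ ^ 2) / (3 * ξ ^ 2 - 1) with hθ
  have hp3 : 0 < 3 * ξ ^ 2 - 1 := by linarith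
  have hp4 : 0 < 1 - ξ ^ 2 := by nlinarith
  have hθ0 : 0 ≤ θ := by rw [hθ]; positivity
  have hθ1 : θ < 1 := by rw [hθ, div_lt_one hp3]; linarith
  set rs : ℝ := (ξ - s) / (1 + ξ) with hrs
  have hsξ : s ≤ ξ := by nlinarith
  have hrs0 : 0 ≤ rs := div_nonneg (by linarith) (by linarith)
  have hrs1 : rs ≤ 1 := by rw [hrs, div_le_one (by linarith)]; linarith
  have key : ∀ (n : ℕ) (j : ℤ) (ε : ℝ), 0 < ε → ∀ᶠ t : ℕ in atTop,
      |-((P (t - 1)).1 (xt t ξ - 2 * j) / (P (t - 1)).2 (xt t ξ - 2 * j)) - rs| ≤ θ ^ n + ε := by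
    intro n
    induction n with
    | zero =>
      intro j ε hε
      filter_upwards [trap_ev h0 h1 h2 j, sites h0 h1 j 2] with t tr si
      obtain ⟨-, hr0, hrc⟩ := tr
      obtain ⟨b1, b2, -⟩ := si
      have hc1 : (((xt t ξ - 2 * j : ℤ) : ℝ) - 1) / (t + ((xt t ξ - 2 * j : ℤ) : ℝ) - 2) ≤ 1 := by
        rw [div_le_one (by linarith)]
        linarith
      rw [pow_zero, abs_le]
      constructor <;> linarith
    | succ n ih =>
      intro j ε hε
      have h3 := hyp_rec h0 h1 hs0 hs (j - 1) (ε := ε * (1 - θ)) (mul_pos hε (by linarith))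
      filter_upwards [ih (j - 1) ε hε, h3] with t a1 a2
      have e : j - 1 + 1 = j := by ring
      rw [e] at a2
      refine a2.trans ?_
      have h4 := mul_le_mul_of_nonneg_left a1 hθ0
      have h5 : θ ^ (n + 1) = θ * θ ^ n := pow_succ' θ n
      rw [mul_add] at h4
      change θ * |-((P (t - 1)).1 (xt t ξ - 2 * (j - 1)) / (P (t - 1)).2 (xt t ξ - 2 * (j - 1))) -
        rs| + ε * (1 - θ) ≤ _
      linarith only [h4, h5]
  rw [Metric.tendsto_atTop]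
  intro ε hε
  obtain ⟨n, hn⟩ := exists_pow_lt_of_lt_one (by linarith : 0 < ε / 2) hθ1
  obtain ⟨N, hN⟩ := eventually_atTop.1 (key n j (ε / 2 / 2) (by linarith))
  refine ⟨N, fun t ht => ?_⟩
  rw [Real.dist_eq]
  have := hN t ht
  linarith

theorem hyp_point {ξ s : ℝ} (h0 : 0 < ξ) (h1 : ξ < 1) (hs0 : 0 < s) (hs : s ^ 2 = 2 * ξ ^ 2 - 1)
    {ε : ℝ} (hε : 0 < ε) :
    ∀ᶠ L : ℕ in atTop, ∀ᶠ t : ℕ in atTop,
      |1 / (L : ℝ) * ∑ j ∈ range L, F t (xt t ξ - 2 * j) - (1 + 2 * ξ + s) / (4 * ξ)| ≤ ε := by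
  have h2 : 1 < 2 * ξ ^ 2 := by nlinarith
  have hterm : ∀ j : ℕ, Tendsto (fun t : ℕ => F t (xt t ξ - 2 * (j : ℤ))) atTop
      (𝓝 ((1 + 2 * ξ + s) / (4 * ξ))) := by
    intro j
    have h3 := hyp_lim h0 h1 hs0 hs (j : ℤ)
    have h4 : Tendsto (fun t : ℕ => 1 / (1 + (-((P (t - 1)).1 (xt t ξ - 2 * (j : ℤ)) /
        (P (t - 1)).2 (xt t ξ - 2 * (j : ℤ)))) ^ 2)) atTop
        (𝓝 (1 / (1 + ((ξ - s) / (1 + ξ)) ^ 2))) :=
      tendsto_const_nhds.div ((h3.pow 2).const_add 1) (by positivity)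
    have e : 1 / (1 + ((ξ - s) / (1 + ξ)) ^ 2) = (1 + 2 * ξ + s) / (4 * ξ) := by
      rw [div_eq_div_iff (by positivity) (by positivity)]
      field_simp
      linear_combination (-(1 + s)) * hs
    rw [e] at h4
    refine h4.congr' ?_
    filter_upwards [trap_ev h0 h1 h2 (j : ℤ)] with t tr
    have hw := tr.1
    unfold F
    field_simp
    ring
  filter_upwards [eventually_gt_atTop 0] with L hL
  have hL' : (L : ℝ) ≠ 0 := by exact_mod_cast hL.ne'
  have h5 := ((tendsto_finsetSum (range L) fun j _ => hterm j).const_mul (1 / (L : ℝ))).sub_const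
    ((1 + 2 * ξ + s) / (4 * ξ))
  rw [sum_const, card_range, nsmul_eq_mul, ← mul_assoc, one_div_mul_cancel hL', one_mul,
    sub_self] at h5
  exact h5.abs.eventually (ge_mem_nhds (by simpa using hε))

end Pool.Agent.R266.FC
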