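import Mathlib
import Pool.Agent.R266.FC.Hyp2

set_option autoImplicit false

/-!
# The limit of the order parameter
-/

namespace Pool.Agent.R266.FC

open Finset Filter Topology MeasureTheory

/-- The local density of the order parameter, for `0 < ξ < 1`. -/
noncomputable def gg (ξ : ℝ) : ℝ :=
  if 2 * ξ ^ 2 < 1 then (1 + ξ + √(1 - 2 * ξ ^ 2)) / (2 * (1 + √(1 - 2 * ξ ^ 2)))
  else (1 + 2 * ξ + √(2 * ξ ^ 2 - 1)) / (4 * ξ)

/-- Its truncation. -/
noncomputable def g (ξ : ℝ) : ℝ := max 0 (min 1 (gg ξ))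

theorem measurable_gg : Measurable gg := by
  unfold gg
  refine Measurable.ite (measurableSet_lt (by fun_prop) measurable_const) ?_ ?_
  · have h : Measurable fun ξ : ℝ => √(1 - 2 * ξ ^ 2) := by fun_prop
    exact ((measurable_id.const_add 1).add h).div ((h.const_add 1).const_mul 2)
  · have h : Measurable fun ξ : ℝ => √(2 * ξ ^ 2 - 1) := by fun_prop
    exact (((measurable_id.const_mul 2).const_add 1).add h).div (measurable_id.const_mul 4)

theorem measurable_g : Measurable g :=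
  measurable_const.max (measurable_const.min measurable_gg)

theorem g_nonneg (ξ : ℝ) : 0 ≤ g ξ := le_max_left _ _

theorem g_le (ξ : ℝ) : g ξ ≤ 1 := max_le zero_le_one (min_le_left _ _)

theorem g_eq {ξ : ℝ} (h0 : 0 < ξ) (h1 : ξ < 1) : g ξ = gg ξ := by
  have hb : 0 ≤ gg ξ ∧ gg ξ ≤ 1 := by
    unfold gg
    split_ifs with h
    · have hs := Real.sqrt_nonneg (1 - 2 * ξ ^ 2)
      constructor
      · positivity
      · rw [div_le_one (by positivity)]
        linarith
    · have hs := Real.sqrt_nonneg (2 * ξ ^ 2 - 1)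
      constructor
      · positivity
      · rw [div_le_one (by positivity)]
        have h2 : √(2 * ξ ^ 2 - 1) ≤ 2 * ξ - 1 := by
          have h3 : 0 ≤ 2 * ξ - 1 := by nlinarith
          rw [Real.sqrt_le_left h3]
          nlinarith [sq_nonneg (1 - ξ)]
        linarith
  unfold g
  rw [min_eq_right hb.2, max_eq_right hb.1]

/-! ### The exceptional set -/

theorem bad_countable : {ξ : ℝ | 0 < ξ ∧ ξ < 1 ∧ ∃ k : ℕ, 0 < k ∧
    lam ξ √(1 - 2 * ξ ^ 2) ^ k = 1}.Countable := by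
  let Z : Set ℝ := ⋃ k : ℕ, Complex.re '' {z : ℂ | z ^ (k + 1) = 1}
  have hZ : Z.Countable := by
    refine Set.countable_iUnion fun k => Set.Countable.image ?_ _
    refine Set.Finite.countable ?_
    refine (Polynomial.nthRootsFinset (k + 1) (1 : ℂ)).finite_toSet.subset fun z hz => ?_
    exact Finset.mem_coe.2 ((Polynomial.mem_nthRootsFinset (Nat.succ_pos k) _).2 hz)
  refine Set.MapsTo.countable_of_injOn (t := Z) (f := fun ξ : ℝ => 1 - 2 * ξ ^ 2 / (1 - ξ ^ 2))
    ?_ ?_ hZ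
  · rintro ξ ⟨-, -, k, hk, h⟩
    refine Set.mem_iUnion.2 ⟨k - 1, lam ξ √(1 - 2 * ξ ^ 2), ?_, lam_re _ _⟩
    have : k - 1 + 1 = k := by omega
    change _ ^ (k - 1 + 1) = 1
    rw [this, h]
  · rintro a ⟨a0, a1, -⟩ b ⟨b0, b1, -⟩ h
    have ha : 0 < 1 - a ^ 2 := by nlinarith
    have hb : 0 < 1 - b ^ 2 := by nlinarith
    have h2 : 2 * a ^ 2 / (1 - a ^ 2) = 2 * b ^ 2 / (1 - b ^ 2) := by
      have : 1 - 2 * a ^ 2 / (1 - a ^ 2) = 1 - 2 * b ^ 2 / (1 - b ^ 2) := h
      linarith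
    rw [div_eq_div_iff ha.ne' hb.ne'] at h2
    have h3 : a ^ 2 = b ^ 2 := by nlinarith
    exact (pow_left_inj₀ a0.le b0.le two_ne_zero).1 h3

theorem ae_good {v : ℝ} (hv1 : v < 1) :
    ∀ᵐ ξ ∂(volume.restrict (Set.Ioc 0 v)), ∀ ε > 0, ∀ᶠ L : ℕ in atTop, ∀ᶠ t : ℕ in atTop,
      |1 / (L : ℝ) * ∑ j ∈ range L, F t (xt t ξ - 2 * j) - g ξ| ≤ ε := by
  have h1 := (ae_restrict_of_ae (s := Set.Ioc 0 v) (bad_countable.ae_notMem volume))
  have h2 := (ae_restrict_of_ae (s := Set.Ioc 0 v)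
    ((Set.countable_singleton (√(1 / 2) : ℝ)).ae_notMem volume))
  filter_upwards [h1, h2, ae_restrict_mem measurableSet_Ioc] with ξ a1 a2 a3 ε hε
  obtain ⟨x0, xv⟩ := a3
  have x1 : ξ < 1 := xv.trans_lt hv1
  rw [g_eq x0 x1]
  unfold gg
  split_ifs with h
  · have hs0 : 0 < √(1 - 2 * ξ ^ 2) := Real.sqrt_pos.2 (by linarith)
    refine ell_point x0 x1 hs0 (Real.sq_sqrt (by linarith)) (fun k hk hr => ?_) hε
    exact a1 ⟨x0, x1, k, hk, hr⟩
  · have hne : 2 * ξ ^ 2 ≠ 1 := by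
      intro h3
      apply a2
      have h4 : ξ ^ 2 = 1 / 2 := by linarith
      rw [Set.mem_singleton_iff, ← h4, Real.sqrt_sq x0.le]
    have h5 : 1 < 2 * ξ ^ 2 := lt_of_le_of_ne (not_lt.1 h) (Ne.symm hne)
    exact hyp_point x0 x1 (Real.sqrt_pos.2 (by linarith)) (Real.sq_sqrt (by linarith)) hε

theorem S_lim {v : ℝ} (hv0 : 0 < v) (hv1 : v < 1) :
    Tendsto (S v) atTop (𝓝 (∫ ξ in (0 : ℝ)..v, g ξ)) := by
  have h := frame F_nonneg F_le_one hv0 measurable_g g_nonneg g_le (ae_good hv1)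
  refine h.congr' ?_
  filter_upwards [eventually_gt_atTop 0] with t ht
  rw [S_eq v t ht]

/-! ### The integrals -/

/-- The primitive in the elliptic region. -/
noncomputable def G1 (x : ℝ) : ℝ :=
  x / 2 + (1 - √(1 - 2 * x ^ 2) + Real.log ((1 + √(1 - 2 * x ^ 2)) / 2)) / 4

/-- The primitive in the hyperbolic region. -/
noncomputable def G2 (x : ℝ) : ℝ :=
  x / 2 + (1 + √(2 * x ^ 2 - 1) - Real.arctan √(2 * x ^ 2 - 1) + Real.log (x / √2)) / 4

theorem G1_deriv {x : ℝ} (hx : 2 * x ^ 2 < 1) : HasDerivAt G1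
    ((1 + x + √(1 - 2 * x ^ 2)) / (2 * (1 + √(1 - 2 * x ^ 2)))) x := by
  have hp : 0 < 1 - 2 * x ^ 2 := by linarith
  have hs0 : 0 < √(1 - 2 * x ^ 2) := Real.sqrt_pos.2 hp
  have d1 : HasDerivAt (fun x : ℝ => 1 - 2 * x ^ 2) (-(2 * (2 * x))) x := by
    have := ((hasDerivAt_pow 2 x).const_mul 2).const_sub 1
    simpa using this
  have d2 := d1.sqrt hp.ne'
  have d3 := ((d2.const_add 1).div_const 2).log (by positivity)
  have d4 := ((hasDerivAt_id x).div_const 2).add (((d2.const_sub 1).add d3).div_const 4)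
  refine d4.congr_deriv ?_
  field_simp
  ring

theorem G2_deriv {x : ℝ} (hx0 : 0 < x) (hx : 1 < 2 * x ^ 2) : HasDerivAt G2
    ((1 + 2 * x + √(2 * x ^ 2 - 1)) / (4 * x)) x := by
  have hp : 0 < 2 * x ^ 2 - 1 := by linarith
  have hs0 : 0 < √(2 * x ^ 2 - 1) := Real.sqrt_pos.2 hp
  have hsq : √(2 * x ^ 2 - 1) ^ 2 = 2 * x ^ 2 - 1 := Real.sq_sqrt hp.le
  have d1 : HasDerivAt (fun x : ℝ => 2 * x ^ 2 - 1) (2 * (2 * x)) x := by
    have := ((hasDerivAt_pow 2 x).const_mul 2).sub_const 1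
    simpa using this
  have d2 := d1.sqrt hp.ne'
  have d3 := d2.arctan
  have d5 := ((hasDerivAt_id x).div_const √2).log 
    (div_ne_zero hx0.ne' (by positivity))
  have d4 := ((hasDerivAt_id x).div_const 2).add
    ((((d2.const_add 1).sub d3).add d5).div_const 4)
  refine d4.congr_deriv ?_
  rw [hsq]
  have h3 : (1 + (2 * x ^ 2 - 1)) = 2 * x ^ 2 := by ring
  rw [h3]
  simp only [id]
  field_simp
  linear_combination (-2) * hsq

theorem G1_cont {v : ℝ} : ContinuousOn G1 (Set.Icc 0 v) := by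
  unfold G1
  have h : Continuous fun x : ℝ => √(1 - 2 * x ^ 2) := by fun_prop
  refine ContinuousOn.add (by fun_prop) (ContinuousOn.div_const (ContinuousOn.add (by fun_prop)
    (ContinuousOn.log (by fun_prop) fun x _ => ?_)) 4)
  have := Real.sqrt_nonneg (1 - 2 * x ^ 2)
  positivity

theorem G2_cont {a v : ℝ} (ha : 0 < a) : ContinuousOn G2 (Set.Icc a v) := by
  unfold G2
  have h : Continuous fun x : ℝ => √(2 * x ^ 2 - 1) := by fun_prop
  refine ContinuousOn.add (by fun_prop) (ContinuousOn.div_const (ContinuousOn.add ?_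
    (ContinuousOn.log (by fun_prop) fun x hx => ?_)) 4)
  · exact ((continuous_const.add h).sub (Real.continuous_arctan.comp h)).continuousOn
  · have : 0 < x := ha.trans_le hx.1
    positivity

theorem int1 {v : ℝ} (hv0 : 0 ≤ v) (hv : 2 * v ^ 2 ≤ 1) : ∫ ξ in (0 : ℝ)..v, g ξ = G1 v := by
  have h := intervalIntegral.integral_eq_sub_of_hasDerivAt_of_le (f := G1) (f' := g) hv0
    G1_cont (fun x hx => ?_)
    (bdd_intervalIntegrable measurable_g g_nonneg g_le _ _)
  · rw [h]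
    have h0 : G1 0 = 0 := by unfold G1; simp
    rw [h0, sub_zero]
  · obtain ⟨hx0, hxv⟩ := hx
    have hx2 : 2 * x ^ 2 < 1 := by nlinarith
    rw [g_eq hx0 (by nlinarith), gg, if_pos hx2]
    exact G1_deriv hx2

theorem int2 {v : ℝ} (hv0 : 0 < v) (hv1 : v < 1) (hv : 1 < 2 * v ^ 2) :
    ∫ ξ in (0 : ℝ)..v, g ξ = G2 v := by
  set a : ℝ := √(1 / 2) with ha
  have ha0 : 0 < a := Real.sqrt_pos.2 (by norm_num)
  have hasq : a ^ 2 = 1 / 2 := Real.sq_sqrt (by norm_num)
  have hav : a < v := by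
    by_contra h
    push Not at h
    nlinarith
  have hi := bdd_intervalIntegrable measurable_g g_nonneg g_le
  rw [← intervalIntegral.integral_add_adjacent_intervals (hi 0 a) (hi a v),
    int1 ha0.le (by rw [hasq]; norm_num)]
  have h := intervalIntegral.integral_eq_sub_of_hasDerivAt_of_le (f := G2) (f' := g) hav.le
    (G2_cont ha0) (fun x hx => ?_) (hi a v)
  · rw [h]
    have e : G1 a = G2 a := by
      unfold G1 G2
      rw [hasq]
      have h1 : (1 - 2 * (1 / 2) : ℝ) = 0 := by norm_num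
      have h2 : (2 * (1 / 2) - 1 : ℝ) = 0 := by norm_num
      have h3 : a / √2 = 1 / 2 := by
        rw [ha, Real.sqrt_div zero_le_one, Real.sqrt_one, div_div, Real.mul_self_sqrt zero_le_two]
      rw [h1, h2, h3]
      simp
    rw [e]
    ring
  · obtain ⟨hx0, hxv⟩ := hx
    have hx1 : 0 < x := ha0.trans hx0
    have hx2 : 1 < 2 * x ^ 2 := by nlinarith
    rw [g_eq hx1 (hxv.trans hv1), gg, if_neg (by linarith)]
    exact G2_deriv hx1 hx2

/-! ### The suggested value is wrong -/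

/-- The auxiliary function. -/
noncomputable def hh (y : ℝ) : ℝ := 1 - √(1 - y) + Real.log ((1 + √(1 - y)) / 2)

theorem hh_cont : Continuous hh := by
  unfold hh
  have h : Continuous fun y : ℝ => √(1 - y) := by fun_prop
  refine Continuous.add (by fun_prop) (Continuous.log (by fun_prop) fun x => ?_)
  have := Real.sqrt_nonneg (1 - x)
  positivity

theorem hh_deriv {y : ℝ} (hy : y < 1) : HasDerivAt hh (1 / (2 * (1 + √(1 - y)))) y := by
  have hp : 0 < 1 - y := by linarith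
  have hs0 : 0 < √(1 - y) := Real.sqrt_pos.2 hp
  have d1 : HasDerivAt (fun y : ℝ => 1 - y) (-1) y := (hasDerivAt_id y).const_sub 1
  have d2 := d1.sqrt hp.ne'
  have d3 := ((d2.const_add 1).div_const 2).log (by positivity)
  have d4 := (d2.const_sub 1).add d3
  refine d4.congr_deriv ?_
  field_simp
  ring

theorem gap {y : ℝ} (hy0 : 0 < y) (hy : 2 * y < 1) : 2 * hh y < hh (2 * y) := by
  have hmono : StrictMonoOn (fun y => hh (2 * y) - 2 * hh y) (Set.Icc 0 y) := by
    refine strictMonoOn_of_deriv_pos (convex_Icc 0 y) ?_ fun x hx => ?_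
    · exact ((hh_cont.comp (continuous_const.mul continuous_id)).sub
        (continuous_const.mul hh_cont)).continuousOn
    · rw [interior_Icc] at hx
      obtain ⟨hx0, hxy⟩ := hx
      have e1 := (hh_deriv (y := 2 * x) (by linarith)).comp x ((hasDerivAt_id x).const_mul 2)
      have e2 := e1.sub ((hh_deriv (y := x) (by linarith)).const_mul 2)
      have e3 : deriv (fun y => hh (2 * y) - 2 * hh y) x = _ := e2.deriv
      rw [e3]
      have h1 : √(1 - 2 * x) < √(1 - x) := Real.sqrt_lt_sqrt (by linarith) (by linarith)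
      have h2 := Real.sqrt_nonneg (1 - 2 * x)
      have h3 : 1 / (2 * (1 + √(1 - x))) < 1 / (2 * (1 + √(1 - 2 * x))) :=
        one_div_lt_one_div_of_lt (by positivity) (by linarith)
      linarith
  have h := hmono (Set.left_mem_Icc.2 hy0.le) (Set.right_mem_Icc.2 hy0.le) hy0
  have h0 : hh 0 = 0 := by unfold hh; simp
  simp only [mul_zero, h0, sub_zero] at h
  linarith

theorem not_suggested {v : ℝ} (hv0 : 0 < v) (hv : 2 * v ^ 2 < 1) :
    1 / 2 * (1 + v - √(1 - v ^ 2) + Real.log ((1 + √(1 - v ^ 2)) / 2)) < G1 v := by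
  have h := gap (y := v ^ 2) (by positivity) hv
  unfold hh at h
  unfold G1
  linarith

end Pool.Agent.R266.FC
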